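import Mathlib

set_option autoImplicit false

open Filter Topology ZeroAtInfty

namespace Pool.Agent.Lib.MP_b3782f_an.H79

section OpenMap

variable {A : Type*} [NormedRing A] [NormedAlgebra ℂ A]

theorem norm_c0_apply_le (t : C₀(ℕ, A)) (k : ℕ) : ‖t k‖ ≤ ‖t‖ := by
  rw [← ZeroAtInftyContinuousMap.norm_toBCF_eq_norm]
  exact t.toBCF.norm_coe_le_norm k

theorem continuous_c0_eval (k : ℕ) : Continuous fun t : C₀(ℕ, A) => t k := by
  let f : C₀(ℕ, A) →ₗ[ℂ] A :=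
    { toFun := fun t => t k, map_add' := fun _ _ => rfl, map_smul' := fun _ _ => rfl }
  exact (f.mkContinuous 1 fun t => by rw [one_mul]; exact norm_c0_apply_le t k).continuous

/-- `a` is within `ε` of the subspace `𝔯`. -/
def Near (𝔯 : Submodule ℂ A) (a : A) (ε : ℝ) : Prop := ∃ r ∈ 𝔯, ‖a - r‖ ≤ ε

theorem Near.mono {𝔯 : Submodule ℂ A} {a : A} {ε η : ℝ} (h : Near 𝔯 a ε) (h2 : ε ≤ η) :
    Near 𝔯 a η := by
  obtain ⟨r, hr, hr2⟩ := h
  exact ⟨r, hr, hr2.trans h2⟩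

theorem near_norm (𝔯 : Submodule ℂ A) (a : A) : Near 𝔯 a ‖a‖ := ⟨0, 𝔯.zero_mem, by simp⟩

theorem Near.mul_right {𝔯 : Submodule ℂ A} (hr : ∀ t ∈ 𝔯, ∀ a, t * a ∈ 𝔯) {a : A} {ε : ℝ}
    (h : Near 𝔯 a ε) (z : A) : Near 𝔯 (a * z) (ε * ‖z‖) := by
  obtain ⟨r, hr1, hr2⟩ := h
  refine ⟨r * z, hr r hr1 z, ?_⟩
  rw [← sub_mul]
  exact (norm_mul_le _ _).trans (by gcongr)

/-- The space `W`. -/
def wSub (𝔯 : Submodule ℂ A) (Q : A) (z : ℕ → A) : Submodule ℂ (A × C₀(ℕ, A)) where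
  carrier := {y | ∀ k, y.1 * z k - Q * y.2 k ∈ 𝔯}
  zero_mem' := by
    intro k
    simp
  add_mem' := by
    intro a b ha hb k
    have h := 𝔯.add_mem (ha k) (hb k)
    have h2 : (a + b).1 * z k - Q * (a + b).2 k
        = a.1 * z k - Q * a.2 k + (b.1 * z k - Q * b.2 k) := by
      simp only [Prod.fst_add, Prod.snd_add, add_mul, ZeroAtInftyContinuousMap.add_apply, mul_add]
      abel
    rw [h2]
    exact h
  smul_mem' := by
    intro c a ha k
    have h := 𝔯.smul_mem c (ha k)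
    have h2 : (c • a).1 * z k - Q * (c • a).2 k = c • (a.1 * z k - Q * a.2 k) := by
      simp only [Prod.smul_fst, Prod.smul_snd, smul_mul_assoc, ZeroAtInftyContinuousMap.smul_apply,
        mul_smul_comm, smul_sub]
    rw [h2]
    exact h

theorem isClosed_wSub {𝔯 : Submodule ℂ A} (hcl : IsClosed (𝔯 : Set A)) (Q : A) (z : ℕ → A) :
    IsClosed (wSub 𝔯 Q z : Set (A × C₀(ℕ, A))) := by
  have : (wSub 𝔯 Q z : Set (A × C₀(ℕ, A)))
      = ⋂ k, (fun y : A × C₀(ℕ, A) => y.1 * z k - Q * y.2 k) ⁻¹' (𝔯 : Set A) := by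
    ext y
    simp [wSub]
  rw [this]
  refine isClosed_iInter fun k => hcl.preimage ?_
  have h1 : Continuous fun y : A × C₀(ℕ, A) => y.2 k := (continuous_c0_eval k).comp continuous_snd
  fun_prop

/-- The graph space. -/
def gSub (𝔯 : Submodule ℂ A) (Q : A) (z : ℕ → A) : Submodule ℂ (A × (A × C₀(ℕ, A))) where
  carrier := {g | g.2.1 - Q * g.1 ∈ 𝔯 ∧ ∀ k, g.2.2 k - g.1 * z k ∈ 𝔯}
  zero_mem' := by
    refine ⟨by simp, fun k => by simp⟩
  add_mem' := by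
    intro a b ha hb
    refine ⟨?_, fun k => ?_⟩
    · have h := 𝔯.add_mem ha.1 hb.1
      have h2 : (a + b).2.1 - Q * (a + b).1 = a.2.1 - Q * a.1 + (b.2.1 - Q * b.1) := by
        simp only [Prod.fst_add, Prod.snd_add, mul_add]
        abel
      rw [h2]
      exact h
    · have h := 𝔯.add_mem (ha.2 k) (hb.2 k)
      have h2 : (a + b).2.2 k - (a + b).1 * z k
          = a.2.2 k - a.1 * z k + (b.2.2 k - b.1 * z k) := by
        simp only [Prod.fst_add, Prod.snd_add, add_mul, ZeroAtInftyContinuousMap.add_apply]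
        abel
      rw [h2]
      exact h
  smul_mem' := by
    intro c a ha
    refine ⟨?_, fun k => ?_⟩
    · have h := 𝔯.smul_mem c ha.1
      have h2 : (c • a).2.1 - Q * (c • a).1 = c • (a.2.1 - Q * a.1) := by
        simp only [Prod.smul_fst, Prod.smul_snd, mul_smul_comm, smul_sub]
      rw [h2]
      exact h
    · have h := 𝔯.smul_mem c (ha.2 k)
      have h2 : (c • a).2.2 k - (c • a).1 * z k = c • (a.2.2 k - a.1 * z k) := by
        simp only [Prod.smul_fst, Prod.smul_snd, smul_mul_assoc,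
          ZeroAtInftyContinuousMap.smul_apply, smul_sub]
      rw [h2]
      exact h

theorem isClosed_gSub {𝔯 : Submodule ℂ A} (hcl : IsClosed (𝔯 : Set A)) (Q : A) (z : ℕ → A) :
    IsClosed (gSub 𝔯 Q z : Set (A × (A × C₀(ℕ, A)))) := by
  have : (gSub 𝔯 Q z : Set (A × (A × C₀(ℕ, A))))
      = ((fun g : A × (A × C₀(ℕ, A)) => g.2.1 - Q * g.1) ⁻¹' (𝔯 : Set A)) ∩
        ⋂ k, (fun g : A × (A × C₀(ℕ, A)) => g.2.2 k - g.1 * z k) ⁻¹' (𝔯 : Set A) := by
    ext y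
    simp [gSub]
  rw [this]
  refine (hcl.preimage (by fun_prop)).inter (isClosed_iInter fun k => hcl.preimage ?_)
  have h1 : Continuous fun g : A × (A × C₀(ℕ, A)) => g.2.2 k :=
    (continuous_c0_eval k).comp (continuous_snd.comp continuous_snd)
  fun_prop

/-- A null sequence as an element of `C₀(ℕ, A)`. -/
def mkC0 (t : ℕ → A) (ht : Tendsto t atTop (𝓝 0)) : C₀(ℕ, A) where
  toFun := t
  continuous_toFun := continuous_of_discreteTopology
  zero_at_infty' := by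
    rw [cocompact_eq_cofinite, Nat.cofinite_eq_atTop]
    exact ht

theorem norm_mkC0_le (t : ℕ → A) (ht : Tendsto t atTop (𝓝 0)) {ε : ℝ} (hε : 0 ≤ ε)
    (h : ∀ k, ‖t k‖ ≤ ε) : ‖mkC0 t ht‖ ≤ ε := by
  rw [← ZeroAtInftyContinuousMap.norm_toBCF_eq_norm, BoundedContinuousFunction.norm_le hε]
  exact h

theorem tendsto_c0 (t : C₀(ℕ, A)) : Tendsto (fun k => t k) atTop (𝓝 0) := by
  have h := t.zero_at_infty'
  rw [cocompact_eq_cofinite, Nat.cofinite_eq_atTop] at h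
  exact h

theorem near_of_near [CompleteSpace A] (𝔯 : Submodule ℂ A) (hcl : IsClosed (𝔯 : Set A))
    (hr : ∀ t ∈ 𝔯, ∀ a, t * a ∈ 𝔯) (Q : A) (hQ : ∀ t, Q * t ∈ 𝔯 ↔ t ∈ 𝔯)
    (z : ℕ → A) (hz : Tendsto z atTop (𝓝 0))
    (hP : ∀ (w : A) (t : ℕ → A), Tendsto t atTop (𝓝 0) → (∀ k, w * z k - Q * t k ∈ 𝔯) →
      ∃ x, w - Q * x ∈ 𝔯) :
    ∃ C > 0, ∀ a, ∀ ε > 0, Near 𝔯 (Q * a) ε → (∀ k, Near 𝔯 (a * z k) ε) → Near 𝔯 a (C * ε) := by
  have h1 : CompleteSpace (wSub 𝔯 Q z) := (isClosed_wSub hcl Q z).completeSpace_coe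
  have h2 : CompleteSpace (gSub 𝔯 Q z) := (isClosed_gSub hcl Q z).completeSpace_coe
  have hmem : ∀ g : gSub 𝔯 Q z, (g : A × (A × C₀(ℕ, A))).2 ∈ wSub 𝔯 Q z := by
    rintro ⟨⟨x, w, t⟩, hg1, hg2⟩ k
    simp only at hg1 hg2 ⊢
    have h3 := 𝔯.sub_mem (hr _ hg1 (z k)) ((hQ _).2 (hg2 k))
    have h4 : (w - Q * x) * z k - Q * (t k - x * z k) = w * z k - Q * t k := by
      noncomm_ring
    rwa [h4] at h3
  let p : gSub 𝔯 Q z →L[ℂ] wSub 𝔯 Q z :=
    ((ContinuousLinearMap.snd ℂ A (A × C₀(ℕ, A))).comp (gSub 𝔯 Q z).subtypeL).codRestrict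
      (wSub 𝔯 Q z) hmem
  have hsurj : Function.Surjective p := by
    rintro ⟨⟨w, t⟩, hwt⟩
    obtain ⟨x, hx⟩ := hP w (fun k => t k) (tendsto_c0 t) hwt
    have hxt : ∀ k, t k - x * z k ∈ 𝔯 := by
      intro k
      rw [← hQ]
      have h3 := 𝔯.sub_mem (hr _ hx (z k)) (hwt k)
      have h4 : (w - Q * x) * z k - (w * z k - Q * t k) = Q * (t k - x * z k) := by
        noncomm_ring
      rwa [h4] at h3
    exact ⟨⟨(x, (w, t)), hx, hxt⟩, rfl⟩
  obtain ⟨C, hC, hC2⟩ := ContinuousLinearMap.exists_preimage_norm_le (𝕜 := ℂ) (𝕜' := ℂ) (σ := RingHom.id ℂ)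
    (E := gSub 𝔯 Q z) (F := wSub 𝔯 Q z) p hsurj
  refine ⟨C, hC, fun a ε hε hQa haz => ?_⟩
  obtain ⟨r0, hr0, hr0'⟩ := hQa
  choose rk hrk hrk' using haz
  -- eventually `‖a z_k‖ ≤ ε`
  have hlim : Tendsto (fun k => ‖a * z k‖) atTop (𝓝 0) := by
    have := (hz.const_mul a).norm
    simpa using this
  obtain ⟨K, hK⟩ := eventually_atTop.1 (hlim.eventually (gt_mem_nhds hε))
  let t : ℕ → A := fun k => if k < K then a * z k - rk k else a * z k
  have htε : ∀ k, ‖t k‖ ≤ ε := by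
    intro k
    by_cases hk : k < K
    · simp only [t, if_pos hk]
      exact hrk' k
    · simp only [t, if_neg hk]
      exact (hK k (not_lt.1 hk)).le
  have ht : Tendsto t atTop (𝓝 0) := by
    have h3 : Tendsto (fun k => a * z k) atTop (𝓝 0) := by simpa using hz.const_mul a
    refine h3.congr' ?_
    filter_upwards [eventually_ge_atTop K] with k hk
    simp only [t, if_neg (not_lt.2 hk)]
  have htm : ∀ k, a * z k - t k ∈ 𝔯 := by
    intro k
    by_cases hk : k < K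
    · simp only [t, if_pos hk, sub_sub_cancel]
      exact hrk k
    · simp only [t, if_neg hk, sub_self]
      exact 𝔯.zero_mem
  have hW : (Q * a - r0, mkC0 t ht) ∈ wSub 𝔯 Q z := by
    intro k
    change (Q * a - r0) * z k - Q * t k ∈ 𝔯
    have h3 := 𝔯.sub_mem ((hQ _).2 (htm k)) (hr _ hr0 (z k))
    have h4 : Q * (a * z k - t k) - r0 * z k = (Q * a - r0) * z k - Q * t k := by
      noncomm_ring
    rwa [h4] at h3
  obtain ⟨g, hg1, hg2⟩ := hC2 ⟨_, hW⟩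
  have hg1' : (g : A × (A × C₀(ℕ, A))).2 = (Q * a - r0, mkC0 t ht) := congrArg Subtype.val hg1
  set x : A := (g : A × (A × C₀(ℕ, A))).1 with hx
  have hgm : Q * a - r0 - Q * x ∈ 𝔯 := by
    have h3 := g.2.1
    rw [hg1'] at h3
    exact h3
  have hax : a - x ∈ 𝔯 := by
    rw [← hQ]
    have h3 := 𝔯.add_mem hgm hr0
    have h4 : Q * a - r0 - Q * x + r0 = Q * (a - x) := by noncomm_ring
    rwa [h4] at h3
  refine ⟨a - x, hax, ?_⟩
  rw [sub_sub_cancel]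
  have h5 : ‖x‖ ≤ ‖g‖ := norm_fst_le (g : A × (A × C₀(ℕ, A)))
  have h6 : ‖(⟨_, hW⟩ : wSub 𝔯 Q z)‖ ≤ ε := by
    change ‖((Q * a - r0, mkC0 t ht) : A × C₀(ℕ, A))‖ ≤ ε
    rw [Prod.norm_def]
    exact max_le hr0' (norm_mkC0_le t ht hε.le htε)
  calc ‖x‖ ≤ ‖g‖ := h5
    _ ≤ C * ‖(⟨_, hW⟩ : wSub 𝔯 Q z)‖ := hg2
    _ ≤ C * ε := by gcongr

/-- Only finitely many of the `z k` matter. -/
theorem near_of_near_finite [CompleteSpace A] (𝔯 : Submodule ℂ A) (hcl : IsClosed (𝔯 : Set A))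
    (hr : ∀ t ∈ 𝔯, ∀ a, t * a ∈ 𝔯) (Q : A) (hQ : ∀ t, Q * t ∈ 𝔯 ↔ t ∈ 𝔯)
    (z : ℕ → A) (hz : Tendsto z atTop (𝓝 0))
    (hP : ∀ (w : A) (t : ℕ → A), Tendsto t atTop (𝓝 0) → (∀ k, w * z k - Q * t k ∈ 𝔯) →
      ∃ x, w - Q * x ∈ 𝔯) :
    ∃ C > 0, ∃ K : ℕ, ∀ a, ∀ ε > 0, Near 𝔯 (Q * a) ε → (∀ k < K, Near 𝔯 (a * z k) ε) →
      Near 𝔯 a (C * ε) := by
  obtain ⟨C, hC, hC2⟩ := near_of_near 𝔯 hcl hr Q hQ z hz hP
  obtain ⟨K, hK⟩ := eventually_atTop.1
    ((tendsto_zero_iff_norm_tendsto_zero.1 hz).eventually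
      (gt_mem_nhds (show (0 : ℝ) < 1 / (2 * C) by positivity)))
  refine ⟨C, hC, K, fun a ε hε hQa haz => ?_⟩
  have hstep : ∀ η > 0, Near 𝔯 a η → Near 𝔯 a (max (C * ε) (η / 2)) := by
    intro η hη h
    have h1 := hC2 a (max ε (η / (2 * C))) (lt_max_of_lt_left hε)
      (hQa.mono (le_max_left _ _)) ?_
    · refine h1.mono ?_
      rw [mul_max_of_nonneg _ _ hC.le]
      have : C * (η / (2 * C)) = η / 2 := by field_simp
      rw [this]
    · intro k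
      by_cases hk : k < K
      · exact (haz k hk).mono (le_max_left _ _)
      · refine (h.mul_right hr (z k)).mono (le_max_of_le_right ?_)
        calc η * ‖z k‖ ≤ η * (1 / (2 * C)) := by
              gcongr
              exact (hK k (not_lt.1 hk)).le
          _ = η / (2 * C) := by ring
  have hit : ∀ n : ℕ, Near 𝔯 a (max (C * ε) ((‖a‖ + 1) / 2 ^ n)) := by
    intro n
    induction n with
    | zero =>
      refine (near_norm 𝔯 a).mono ?_
      rw [pow_zero, div_one]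
      exact le_max_of_le_right (by linarith)
    | succ n ih =>
      refine (hstep _ (lt_max_of_lt_left (by positivity)) ih).mono ?_
      have h3 : max (C * ε) ((‖a‖ + 1) / 2 ^ n) / 2 ≤ max (C * ε) ((‖a‖ + 1) / 2 ^ (n + 1)) := by
        have h4 : 0 < C * ε := by positivity
        rw [pow_succ, ← div_div, div_le_iff₀ (by norm_num)]
        apply max_le
        · have := le_max_left (C * ε) ((‖a‖ + 1) / 2 ^ n / 2)
          linarith
        · have := le_max_right (C * ε) ((‖a‖ + 1) / 2 ^ n / 2)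
          linarith
      exact max_le (le_max_left _ _) h3
  obtain ⟨n, hn⟩ := exists_nat_gt ((‖a‖ + 1) / (C * ε))
  have h4 : (‖a‖ + 1) / 2 ^ n ≤ C * ε := by
    rw [div_le_iff₀ (by positivity)]
    have h5 : (n : ℝ) ≤ 2 ^ n := by exact_mod_cast (Nat.lt_two_pow_self).le
    rw [div_lt_iff₀ (by positivity)] at hn
    have h6 : (n : ℝ) * (C * ε) ≤ 2 ^ n * (C * ε) := by gcongr
    linarith
  have h7 := hit n
  rwa [max_eq_left h4] at h7

end OpenMap

end Pool.Agent.Lib.MP_b3782f_an.H79
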