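import Pool.Agent.Lib.MP_b3782f_an.H79.Sep
import Pool.Agent.Lib.MP_b3782f_an.H79.OpenMap

set_option autoImplicit false

open Filter Topology Finset

namespace Pool.Agent.Lib.MP_b3782f_an.H79

section FQ

variable {A : Type*} [NormedRing A]

/-- A set `R` of elements of a normed ring is finitely quasinilpotent if every finite subset `F`
of `R` has joint spectral radius zero: for every `ε > 0` there is `N > 0` such that all products
of `N` elements of `F` have norm at most `ε ^ N`. -/
def FQ (R : Set A) : Prop :=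
  ∀ F : Finset A, (∀ x ∈ F, x ∈ R) → ∀ ε : ℝ, 0 < ε → ∃ N : ℕ, 0 < N ∧
    ∀ l : List A, l.length = N → (∀ x ∈ l, x ∈ F) → ‖l.prod‖ ≤ ε ^ N

theorem FQ.mono {R R' : Set A} (h : FQ R) (hR : R' ⊆ R) : FQ R' :=
  fun F hF => h F fun x hx => hR (hF x hx)

theorem FQ.word_bound {R : Set A} (h : FQ R) (F : Finset A) (hF : ∀ x ∈ F, x ∈ R) {ε : ℝ}
    (hε : 0 < ε) : ∃ M > 0, ∀ l : List A, (∀ x ∈ l, x ∈ F) → ‖l.prod‖ ≤ M * ε ^ l.length := by
  obtain ⟨N, hN, hN2⟩ := h F hF ε hε
  obtain ⟨B, hB1, hB⟩ : ∃ B : ℝ, 1 ≤ B ∧ ∀ x ∈ F, ‖x‖ ≤ B * ε := by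
    refine ⟨1 + (∑ x ∈ F, ‖x‖) / ε, ?_, fun x hx => ?_⟩
    · have : 0 ≤ (∑ x ∈ F, ‖x‖) / ε := by positivity
      linarith
    · rw [add_mul, div_mul_cancel₀ _ hε.ne', one_mul]
      have h1 : ‖x‖ ≤ ∑ x ∈ F, ‖x‖ := Finset.single_le_sum (fun y _ => norm_nonneg y) hx
      linarith
  have hshort : ∀ l : List A, (∀ x ∈ l, x ∈ F) → ‖l.prod‖ ≤ ‖(1 : A)‖ * (B * ε) ^ l.length := by
    intro l
    induction l with
    | nil => intro _; simp
    | cons a l ih =>
      intro hl
      rw [List.prod_cons, List.length_cons, pow_succ]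
      calc ‖a * l.prod‖ ≤ ‖a‖ * ‖l.prod‖ := norm_mul_le _ _
        _ ≤ (B * ε) * (‖(1 : A)‖ * (B * ε) ^ l.length) := by
            have h1 := hB a (hl a (by simp))
            have h2 := ih fun x hx => hl x (by simp [hx])
            gcongr
        _ = _ := by ring
  have hM : 0 < (‖(1 : A)‖ + 1) * B ^ N := by positivity
  refine ⟨(‖(1 : A)‖ + 1) * B ^ N, hM, ?_⟩
  have key : ∀ n : ℕ, ∀ l : List A, l.length = n → (∀ x ∈ l, x ∈ F) →
      ‖l.prod‖ ≤ (‖(1 : A)‖ + 1) * B ^ N * ε ^ l.length := by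
    intro n
    induction n using Nat.strong_induction_on with
    | _ n ih =>
      intro l hl hlF
      by_cases hlt : l.length < N
      · refine (hshort l hlF).trans ?_
        rw [mul_pow]
        have h1 : B ^ l.length ≤ B ^ N := pow_le_pow_right₀ hB1 hlt.le
        have h2 : ‖(1 : A)‖ * (B ^ l.length * ε ^ l.length)
            ≤ (‖(1 : A)‖ + 1) * (B ^ N * ε ^ l.length) := by
          gcongr
          linarith
        linarith
      · rw [not_lt] at hlt
        have h1 : (l.take N).length = N := by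
          rw [List.length_take]
          exact min_eq_left hlt
        have h2 := hN2 (l.take N) h1 fun x hx => hlF x (List.mem_of_mem_take hx)
        have h3 := ih (l.drop N).length (by rw [List.length_drop]; omega) (l.drop N) rfl
          fun x hx => hlF x (List.mem_of_mem_drop hx)
        have h4 : l.prod = (l.take N).prod * (l.drop N).prod := by
          rw [← List.prod_append, List.take_append_drop]
        have h5 : ε ^ l.length = ε ^ N * ε ^ (l.drop N).length := by
          rw [← pow_add, List.length_drop]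
          congr 1
          omega
        rw [h4, h5]
        calc ‖(l.take N).prod * (l.drop N).prod‖
            ≤ ‖(l.take N).prod‖ * ‖(l.drop N).prod‖ := norm_mul_le _ _
          _ ≤ ε ^ N * ((‖(1 : A)‖ + 1) * B ^ N * ε ^ (l.drop N).length) := by gcongr
          _ = _ := by ring
  exact fun l hl => key _ l rfl hl

end FQ

section Iter

variable {A : Type*} [NormedRing A] [NormedAlgebra ℂ A]

theorem near_iter {𝔯 : Submodule ℂ A} {Q : A} {z : ℕ → A} {C : ℝ} {K : ℕ} (hC : 0 < C)
    (h : ∀ a, ∀ ε > 0, Near 𝔯 (Q * a) ε → (∀ k < K, Near 𝔯 (a * z k) ε) → Near 𝔯 a (C * ε))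
    (n : ℕ) : ∀ a, ∀ ε > 0, (∀ i ≤ n, ∀ l : List A, l.length = n - i →
      (∀ x ∈ l, ∃ k < K, x = z k) → Near 𝔯 (Q ^ i * a * l.prod) ε) → Near 𝔯 a (C ^ n * ε) := by
  induction n with
  | zero =>
    intro a ε hε hl
    have := hl 0 le_rfl [] rfl (by simp)
    simpa using this
  | succ n ih =>
    intro a ε hε hl
    rw [pow_succ', mul_assoc]
    refine h a _ (by positivity) (ih (Q * a) ε hε ?_) fun k hk => ih (a * z k) ε hε ?_
    · intro i hi l hlen hlF
      have := hl (i + 1) (by omega) l (by omega) hlF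
      rwa [pow_succ, mul_assoc (Q ^ i) Q a] at this
    · intro i hi l hlen hlF
      have := hl i (by omega) (z k :: l) (by rw [List.length_cons]; omega) ?_
      · rwa [List.prod_cons, ← mul_assoc, mul_assoc (Q ^ i) a (z k)] at this
      · intro x hx
        rcases List.mem_cons.1 hx with rfl | hx
        · exact ⟨k, hk, rfl⟩
        · exact hlF x hx

end Iter

section Local

variable {A : Type} [NormedRing A] [NormedAlgebra ℂ A] [CompleteSpace A]
variable {δ : A →ₗ[ℂ] A} (hδ : ∀ a b : A, δ (a * b) = a * δ b + δ a * b)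

include hδ

omit [CompleteSpace A] in
theorem deriv_one : δ 1 = 0 := by
  have h := hδ 1 1
  rw [mul_one, mul_one, one_mul] at h
  exact left_eq_add.1 h

omit [CompleteSpace A] in
theorem deriv_pow_one {m : ℕ} (hm : 0 < m) : (δ ^ m) 1 = 0 := by
  obtain ⟨k, rfl⟩ := Nat.exists_eq_succ_of_ne_zero hm.ne'
  rw [pow_succ, Module.End.mul_apply, deriv_one hδ, map_zero]

omit [CompleteSpace A] in
theorem finOrd_mul (φ : A →ₐ[ℂ] ℂ) {a b : A} (ha : ∃ n, φ (dp δ n a) ≠ 0)
    (hb : ∃ n, φ (dp δ n b) ≠ 0) : ∃ n, φ (dp δ n (a * b)) ≠ 0 := by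
  classical
  set p := Nat.find ha with hp
  set q := Nat.find hb with hq
  refine ⟨p + q, ?_⟩
  rw [dp_mul hδ, map_sum, Finset.sum_eq_single (p, q)]
  · rw [map_mul]
    exact mul_ne_zero (Nat.find_spec ha) (Nat.find_spec hb)
  · rintro ⟨i, j⟩ hij hne
    rw [HasAntidiagonal.mem_antidiagonal] at hij
    simp only at hij ⊢
    rw [map_mul]
    rcases lt_trichotomy i p with h | h | h
    · have := Nat.find_min ha h
      rw [not_not] at this
      rw [this, zero_mul]
    · exfalso
      apply hne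
      subst h
      ext
      · rfl
      · simp only
        omega
    · have h2 : j < q := by omega
      have := Nat.find_min hb h2
      rw [not_not] at this
      rw [this, mul_zero]
  · intro h
    exact absurd (HasAntidiagonal.mem_antidiagonal.2 (rfl : p + q = p + q)) h

/-- The local theorem. -/
theorem local_main (φ : A →ₐ[ℂ] ℂ) (hloc : ∀ a, φ a ≠ 0 → IsUnit a)
    (hFQ : FQ {x : A | φ x = 0}) (n : ℕ) : Continuous fun a => φ ((δ ^ n) a) := by
  classical
  by_contra hn
  have hex : ∃ n, ¬ Continuous fun a => φ ((δ ^ n) a) := ⟨n, hn⟩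
  set m := Nat.find hex with hm
  have hdisc : ¬ Continuous fun a => φ ((δ ^ m) a) := Nat.find_spec hex
  have hc : ∀ j < m, Continuous fun a => φ ((δ ^ j) a) := fun j hj => by
    have := Nat.find_min hex hj
    rwa [not_not] at this
  have hφc : Continuous φ := by
    have : ContinuousLinearMapClass (A →ₐ[ℂ] ℂ) ℂ A ℂ := inferInstance
    exact map_continuous φ
  have hmpos : 0 < m := by
    rcases Nat.eq_zero_or_pos m with h | h
    · exfalso
      apply hdisc
      rw [h]
      simpa using hφc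
    · exact h
  let φc : A →L[ℂ] ℂ := ⟨φ.toLinearMap, hφc⟩
  let c : ℕ → A →ₗ[ℂ] ℂ := fun j => φ.toLinearMap ∘ₗ (δ ^ j)
  have hcapp : ∀ j a, c j a = φ ((δ ^ j) a) := fun _ _ => rfl
  -- an element of the separating space of finite order
  obtain ⟨s0, hs0, hs0'⟩ : ∃ s ∈ Sep δ, φ ((δ ^ (m - 1)) s) ≠ 0 := by
    by_contra hcon
    push Not at hcon
    apply hdisc
    let f : A →L[ℂ] ℂ := ⟨c (m - 1), hc (m - 1) (by omega)⟩
    have h1 := continuous_of_sep δ f hcon
    have h2 : ∀ a, f (δ a) = φ ((δ ^ m) a) := by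
      intro a
      change φ ((δ ^ (m - 1)) (δ a)) = φ ((δ ^ m) a)
      rw [← Module.End.mul_apply, ← pow_succ, Nat.sub_add_cancel hmpos]
    simpa only [h2] using h1
  have hs0f : ∃ n, φ (dp δ n s0) ≠ 0 := by
    refine ⟨m - 1, ?_⟩
    rw [dp_apply, map_smul, smul_eq_mul]
    exact mul_ne_zero (inv_ne_zero (Nat.cast_ne_zero.2 (Nat.factorial_ne_zero _))) hs0'
  -- a null sequence in the radical
  obtain ⟨z, hz, hzφ, hzd⟩ : ∃ z : ℕ → A, Tendsto z atTop (𝓝 0) ∧ (∀ k, φ (z k) = 0) ∧
      ∀ k, φ ((δ ^ m) (z k)) = 1 := by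
    obtain ⟨y, hy1, hy2⟩ := exists_null_seq (c m) hdisc
    refine ⟨fun k => y k - φ (y k) • 1, ?_, ?_, ?_⟩
    · have h1 : Tendsto (fun k => φ (y k)) atTop (𝓝 0) := by
        have := (hφc.tendsto 0).comp hy1
        simpa [Function.comp_def] using this
      have h2 := hy1.sub (h1.smul_const (1 : A))
      simpa using h2
    · intro k
      simp
    · intro k
      rw [map_sub, map_smul, deriv_pow_one hδ hmpos, smul_zero, sub_zero]
      exact hy2 k
  set Q := z 0 with hQ
  have hQf : ∃ n, φ (dp δ n Q) ≠ 0 := by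
    refine ⟨m, ?_⟩
    rw [dp_apply, map_smul, smul_eq_mul, hzd, mul_one]
    exact inv_ne_zero (Nat.cast_ne_zero.2 (Nat.factorial_ne_zero _))
  have hQp : ∀ j : ℕ, ∃ n, φ (dp δ n (Q ^ j)) ≠ 0 := by
    intro j
    induction j with
    | zero => exact ⟨0, by simp⟩
    | succ j ih => rw [pow_succ]; exact finOrd_mul hδ φ ih hQf
  obtain ⟨j, hj⟩ := stability hδ Q
  -- the closed right ideal
  let 𝔯 : Submodule ℂ A :=
    { carrier := {t | ∀ s ∈ Sep δ, s * Q ^ j * t = 0}
      zero_mem' := fun s _ => mul_zero _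
      add_mem' := fun {a b} ha hb s hs => by rw [mul_add, ha s hs, hb s hs, add_zero]
      smul_mem' := fun c a ha s hs => by rw [mul_smul_comm, ha s hs, smul_zero] }
  have hmem : ∀ t, t ∈ 𝔯 ↔ ∀ s ∈ Sep δ, s * Q ^ j * t = 0 := fun t => Iff.rfl
  have hcl : IsClosed (𝔯 : Set A) := by
    have : (𝔯 : Set A) = ⋂ s ∈ Sep δ, {t : A | s * Q ^ j * t = 0} := by
      ext t
      simp [hmem]
    rw [this]
    exact isClosed_biInter fun s _ => isClosed_eq (by fun_prop) continuous_const
  have hr : ∀ t ∈ 𝔯, ∀ a, t * a ∈ 𝔯 := by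
    intro t ht a s hs
    rw [← mul_assoc, ht s hs, zero_mul]
  have hQr : ∀ t, Q * t ∈ 𝔯 ↔ t ∈ 𝔯 := by
    intro t
    constructor
    · intro h
      refine hj t fun s hs => ?_
      have := h s hs
      rw [pow_succ, ← mul_assoc]
      rwa [← mul_assoc] at this
    · intro h s hs
      have := h (s * Q) (Sep.mul_right hδ hs Q)
      rw [← mul_assoc, mul_assoc s (Q ^ j) Q, ← pow_succ, pow_succ', ← mul_assoc s Q]
      exact this
  have h1 : (1 : A) ∉ 𝔯 := by
    intro h
    obtain ⟨n, hn⟩ := finOrd_mul hδ φ hs0f (hQp j)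
    have := h s0 hs0
    rw [mul_one] at this
    rw [this, map_zero, map_zero] at hn
    exact hn rfl
  have hP : ∀ (w : A) (t : ℕ → A), Tendsto t atTop (𝓝 0) → (∀ k, w * z k - Q * t k ∈ 𝔯) →
      ∃ x, w - Q * x ∈ 𝔯 := by
    intro w t ht hwt
    let R : Set (A × A) := {r | ∃ s ∈ Sep δ, r = (s * Q ^ j * w, s * Q ^ j * Q)}
    have hrel : ∀ k, (z k, t k) ∈ relSub R := by
      rintro k r ⟨s, hs, rfl⟩
      have h2 := hwt k s hs
      simp only
      rw [mul_sub, sub_eq_zero] at h2
      rw [mul_assoc (s * Q ^ j) w, h2, mul_assoc (s * Q ^ j) Q]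
    obtain ⟨⟨v, s'⟩, hv, hv'⟩ := key_lemma hδ m R φc hc (fun k => (z k, t k)) hrel
      (Tendsto.prodMk_nhds hz ht) hzd
    obtain ⟨u, hu⟩ := hloc v hv'
    refine ⟨s' * ((u⁻¹ : Aˣ) : A), fun s hs => ?_⟩
    have h2 := hv (s * Q ^ j * w, s * Q ^ j * Q) ⟨s, hs, rfl⟩
    simp only at h2
    have h3 : s * Q ^ j * (w - Q * (s' * ((u⁻¹ : Aˣ) : A)))
        = (s * Q ^ j * w * (u : A) - s * Q ^ j * Q * s') * ((u⁻¹ : Aˣ) : A) := by
      rw [sub_mul, mul_assoc (s * Q ^ j * w) (u : A), Units.mul_inv]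
      noncomm_ring
    rw [h3, hu, h2, sub_self, zero_mul]
  obtain ⟨C, hC, K, hCK⟩ := near_of_near_finite 𝔯 hcl hr Q hQr z hz hP
  -- joint spectral radius
  let F : Finset A := insert Q (Finset.image z (Finset.range K))
  have hF : ∀ x ∈ F, x ∈ {x : A | φ x = 0} := by
    intro x hx
    rcases Finset.mem_insert.1 hx with rfl | hx
    · exact hzφ 0
    · obtain ⟨k, -, rfl⟩ := Finset.mem_image.1 hx
      exact hzφ k
  obtain ⟨M, hM, hM2⟩ := hFQ.word_bound F hF (show 0 < 1 / (2 * C) by positivity)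
  have hnear : ∀ n : ℕ, Near 𝔯 1 (M * (1 / 2) ^ n) := by
    intro n
    have h2 := near_iter hC hCK n 1 (M * (1 / (2 * C)) ^ n) (by positivity) ?_
    · refine h2.mono (le_of_eq ?_)
      rw [one_div, one_div, mul_inv, mul_pow, inv_pow C]
      have : C ^ n ≠ 0 := (pow_pos hC n).ne'
      field_simp
    · intro i hi l hlen hl
      refine (near_norm 𝔯 _).mono ?_
      have h3 : Q ^ i * 1 * l.prod = (List.replicate i Q ++ l).prod := by
        rw [List.prod_append, List.prod_replicate, mul_one]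
      rw [h3]
      have h4 := hM2 (List.replicate i Q ++ l) ?_
      · have h5 : (List.replicate i Q ++ l).length = n := by
          rw [List.length_append, List.length_replicate]
          omega
        rwa [h5] at h4
      · intro x hx
        rcases List.mem_append.1 hx with hx | hx
        · rw [List.eq_of_mem_replicate hx]
          exact Finset.mem_insert_self _ _
        · obtain ⟨k, hk, rfl⟩ := hl x hx
          exact Finset.mem_insert_of_mem (Finset.mem_image_of_mem _ (Finset.mem_range.2 hk))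
  apply h1
  choose r hr1 hr2 using hnear
  have hlim : Tendsto r atTop (𝓝 1) := by
    rw [tendsto_iff_norm_sub_tendsto_zero]
    have h2 := (tendsto_pow_atTop_nhds_zero_of_lt_one (show (0 : ℝ) ≤ 1 / 2 by norm_num)
      (by norm_num)).const_mul M
    rw [mul_zero] at h2
    refine squeeze_zero (fun _ => norm_nonneg _) (fun n => ?_) h2
    rw [norm_sub_rev]
    exact hr2 n
  exact hcl.mem_of_tendsto hlim (Eventually.of_forall hr1)

end Local

end Pool.Agent.Lib.MP_b3782f_an.H79
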