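import Mathlib

set_option autoImplicit false
set_option linter.unusedSectionVars false
open Filter Topology Polynomial

namespace Pool.Agent.Lib.MP_b3782f_an.H79

section Banach
variable {T : Type*} [NormedRing T] [NormedAlgebra ℂ T]

/-- quasinilpotent, growth form -/
def QN (x : T) : Prop := ∀ ε : ℝ, 0 < ε → ∃ C : ℝ, ∀ n : ℕ, ‖x ^ n‖ ≤ C * ε ^ n

theorem QN.nonneg_const {x : T} (h : QN x) (ε : ℝ) (hε : 0 < ε) :
    ∃ C : ℝ, 0 ≤ C ∧ ∀ n : ℕ, ‖x ^ n‖ ≤ C * ε ^ n := by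
  obtain ⟨C, hC⟩ := h ε hε
  refine ⟨C, ?_, hC⟩
  have := hC 0
  simp only [pow_zero, mul_one] at this
  exact (norm_nonneg _).trans this

theorem QN.zero : QN (0 : T) := by
  intro ε hε
  refine ⟨‖(1 : T)‖, fun n => ?_⟩
  rcases Nat.eq_zero_or_pos n with rfl | hn
  · simp
  · rw [zero_pow hn.ne', norm_zero]
    positivity

theorem QN.smul {x : T} (h : QN x) (c : ℂ) : QN (c • x) := by
  intro ε hε
  by_cases hc : c = 0
  · subst hc; rw [zero_smul]; exact QN.zero ε hε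
  · have hc' : 0 < ‖c‖ := norm_pos_iff.mpr hc
    obtain ⟨C, hC⟩ := h (ε / ‖c‖) (by positivity)
    refine ⟨C, fun n => ?_⟩
    rw [_root_.smul_pow, norm_smul, norm_pow]
    calc ‖c‖ ^ n * ‖x ^ n‖ ≤ ‖c‖ ^ n * (C * (ε / ‖c‖) ^ n) := by
          gcongr; exact hC n
      _ = C * ε ^ n := by
          rw [div_pow]; field_simp

theorem QN.neg {x : T} (h : QN x) : QN (-x) := by
  have := h.smul (-1)
  simpa using this

/-- product of a quasinilpotent element with a commuting one -/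
theorem QN.mul_comm_right {x y : T} (h : QN x) (hc : Commute x y) : QN (x * y) := by
  intro ε hε
  have hpos : 0 < ‖y‖ + 1 := by positivity
  obtain ⟨C, hC0, hC⟩ := h.nonneg_const (ε / (‖y‖ + 1)) (by positivity)
  refine ⟨C * (‖(1:T)‖ + 1), fun n => ?_⟩
  rw [hc.mul_pow]
  have hyn : ‖y ^ n‖ ≤ (‖(1:T)‖ + 1) * (‖y‖ + 1) ^ n := by
    rcases Nat.eq_zero_or_pos n with rfl | hn
    · simp
    · calc ‖y ^ n‖ ≤ ‖y‖ ^ n := norm_pow_le' y hn
        _ ≤ (‖y‖ + 1) ^ n := by gcongr; linarith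
        _ ≤ (‖(1:T)‖ + 1) * (‖y‖ + 1) ^ n := by
            have : 0 ≤ ‖(1:T)‖ * (‖y‖ + 1) ^ n := by positivity
            linarith
  calc ‖x ^ n * y ^ n‖ ≤ ‖x ^ n‖ * ‖y ^ n‖ := norm_mul_le _ _
    _ ≤ (C * (ε / (‖y‖ + 1)) ^ n) * ((‖(1:T)‖ + 1) * (‖y‖ + 1) ^ n) := by
        gcongr
        exact hC n
    _ = C * (‖(1:T)‖ + 1) * ε ^ n := by
        rw [div_pow]; field_simp

theorem QN.mul_comm_left {x y : T} (h : QN x) (hc : Commute x y) : QN (y * x) := by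
  rw [← hc.eq]; exact h.mul_comm_right hc

/-- Gelfand's formula: spectrum inside `{0}` gives quasinilpotence -/
theorem qn_of_spectrum [CompleteSpace T] (x : T) (h : ∀ z ∈ spectrum ℂ x, z = 0) : QN x := by
  have hr : spectralRadius ℂ x = 0 := by
    unfold spectralRadius
    simp only [ENNReal.iSup_eq_zero]
    intro z hz
    rw [h z hz]; simp
  have ht := spectrum.pow_nnnorm_pow_one_div_tendsto_nhds_spectralRadius x
  rw [hr] at ht
  intro ε hε
  have hev : ∀ᶠ n : ℕ in atTop, ((‖x ^ n‖₊ : ENNReal) ^ (1 / n : ℝ)) < ENNReal.ofReal ε :=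
    (tendsto_order.1 ht).2 _ (ENNReal.ofReal_pos.mpr hε)
  have hev2 : ∀ᶠ n : ℕ in atTop, ‖x ^ n‖ ≤ ε ^ n := by
    filter_upwards [hev, eventually_gt_atTop 0] with n hn hn0
    have hn0' : (n : ℝ) ≠ 0 := by positivity
    have h1 : (‖x ^ n‖₊ : ENNReal) ≤ (ENNReal.ofReal ε) ^ n := by
      have := ENNReal.rpow_le_rpow hn.le (z := (n : ℝ)) (by positivity)
      rw [← ENNReal.rpow_mul, one_div, inv_mul_cancel₀ hn0', ENNReal.rpow_one,
        ENNReal.rpow_natCast] at this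
      exact this
    rw [← ENNReal.ofReal_pow hε.le] at h1
    have h2 : ENNReal.ofReal ‖x ^ n‖ ≤ ENNReal.ofReal (ε ^ n) := by
      rw [ofReal_norm]; exact h1
    exact (ENNReal.ofReal_le_ofReal_iff (by positivity)).1 h2
  obtain ⟨N, hN⟩ := eventually_atTop.1 hev2
  refine ⟨1 + ∑ i ∈ Finset.range N, ‖x ^ i‖ / ε ^ i, fun n => ?_⟩
  have hsum : 0 ≤ ∑ i ∈ Finset.range N, ‖x ^ i‖ / ε ^ i :=
    Finset.sum_nonneg fun i _ => by positivity
  by_cases hn : N ≤ n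
  · calc ‖x ^ n‖ ≤ ε ^ n := hN n hn
      _ ≤ (1 + ∑ i ∈ Finset.range N, ‖x ^ i‖ / ε ^ i) * ε ^ n := by
        have : 0 ≤ (∑ i ∈ Finset.range N, ‖x ^ i‖ / ε ^ i) * ε ^ n := by positivity
        linarith
  · have hn' : n ∈ Finset.range N := Finset.mem_range.2 (not_le.1 hn)
    have h1 : ‖x ^ n‖ / ε ^ n ≤ ∑ i ∈ Finset.range N, ‖x ^ i‖ / ε ^ i :=
      Finset.single_le_sum (f := fun i => ‖x ^ i‖ / ε ^ i) (fun i _ => by positivity) hn'
    rw [div_le_iff₀ (by positivity)] at h1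
    have : 0 ≤ ε ^ n := by positivity
    linarith

/-- quasinilpotent `x` gives `1 - x` invertible -/
theorem QN.isUnit_one_sub [CompleteSpace T] {x : T} (h : QN x) : IsUnit (1 - x) := by
  obtain ⟨C, hC0, hC⟩ := h.nonneg_const (1 / 2) (by norm_num)
  have : ∃ n : ℕ, 0 < n ∧ ‖x ^ n‖ < 1 := by
    have ht : Tendsto (fun n : ℕ => C * (1 / 2 : ℝ) ^ n) atTop (𝓝 (C * 0)) :=
      (tendsto_pow_atTop_nhds_zero_of_lt_one (by norm_num) (by norm_num)).const_mul C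
    rw [mul_zero] at ht
    have hev := (tendsto_order.1 ht).2 1 (by norm_num)
    obtain ⟨n, hn, hn0⟩ := (hev.and (eventually_gt_atTop 0)).exists
    exact ⟨n, hn0, (hC n).trans_lt hn⟩
  obtain ⟨n, hn0, hn⟩ := this
  have hu : IsUnit (1 - x ^ n) := ⟨Units.oneSub (x ^ n) hn, rfl⟩
  have hfac : (1 - x) * (∑ i ∈ Finset.range n, x ^ i) = 1 - x ^ n := mul_neg_geom_sum x n
  have hfac2 : (∑ i ∈ Finset.range n, x ^ i) * (1 - x) = 1 - x ^ n := geom_sum_mul_neg x n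
  exact (Commute.isUnit_mul_iff (show Commute (1 - x) (∑ i ∈ Finset.range n, x ^ i) from
    hfac.trans hfac2.symm)).1 (hfac ▸ hu) |>.1

theorem QN.isUnit_one_add [CompleteSpace T] {x : T} (h : QN x) : IsUnit (1 + x) := by
  have := h.neg.isUnit_one_sub
  simpa using this

theorem QN.isUnit_smul_sub [CompleteSpace T] {x : T} (h : QN x) (z : ℂ) (hz : z ≠ 0) :
    IsUnit (algebraMap ℂ T z - x) := by
  have h1 := (h.smul z⁻¹).isUnit_one_sub
  have h2 : algebraMap ℂ T z - x = algebraMap ℂ T z * (1 - z⁻¹ • x) := by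
    rw [mul_sub, mul_one, ← Algebra.smul_def, smul_smul, mul_inv_cancel₀ hz, one_smul]
  rw [h2]
  exact ((IsUnit.mk0 z hz).map (algebraMap ℂ T)).mul h1

/-- an idempotent quasinilpotent is zero -/
theorem QN.idem_zero [CompleteSpace T] {x : T} (h : QN x) (hi : x * x = x) : x = 0 := by
  have h1 := h.isUnit_one_sub
  have h2 : (1 - x) * x = 0 := by rw [sub_mul, one_mul, hi, sub_self]
  exact (h1.mul_right_eq_zero).1 h2

/-- if `w u = u ν`, `w` invertible and `ν` quasinilpotent, then `u = 0` -/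
theorem QN.intertwine {w u ν : T} (hν : QN ν) (hw : IsUnit w) (h : w * u = u * ν) : u = 0 := by
  obtain ⟨w, rfl⟩ := hw
  have h1 : ∀ n : ℕ, (w : T) ^ n * u = u * ν ^ n := by
    intro n
    induction n with
    | zero => simp
    | succ n ih => rw [pow_succ, mul_assoc, h, ← mul_assoc, ih, mul_assoc, ← pow_succ]
  have h2 : ∀ n : ℕ, u = ((w⁻¹ : Tˣ) : T) ^ n * (u * ν ^ n) := by
    intro n
    rw [← h1 n, ← mul_assoc, ← Units.val_pow_eq_pow_val, ← Units.val_pow_eq_pow_val,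
      ← Units.val_mul, inv_pow, inv_mul_cancel, Units.val_one, one_mul]
  have hpos : 0 < ‖((w⁻¹ : Tˣ) : T)‖ + 1 := by positivity
  set K := ‖((w⁻¹ : Tˣ) : T)‖ + 1 with hK
  obtain ⟨C, hC0, hC⟩ := hν.nonneg_const (1 / (2 * K)) (by positivity)
  have h3 : ∀ n : ℕ, 0 < n → ‖u‖ ≤ (‖u‖ * C) * (1 / 2) ^ n := by
    intro n hn
    calc ‖u‖ = ‖((w⁻¹ : Tˣ) : T) ^ n * (u * ν ^ n)‖ := by rw [← h2 n]
      _ ≤ ‖((w⁻¹ : Tˣ) : T) ^ n‖ * ‖u * ν ^ n‖ := norm_mul_le _ _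
      _ ≤ K ^ n * (‖u‖ * (C * (1 / (2 * K)) ^ n)) := by
          gcongr
          · exact (norm_pow_le' _ hn).trans (by gcongr; simp [hK])
          · exact (norm_mul_le _ _).trans (by gcongr; exact hC n)
      _ = (‖u‖ * C) * (1 / 2) ^ n := by
          rw [div_pow, div_pow, mul_pow]; field_simp
  have ht : Tendsto (fun n : ℕ => (‖u‖ * C) * (1 / 2 : ℝ) ^ n) atTop (𝓝 ((‖u‖ * C) * 0)) :=
    (tendsto_pow_atTop_nhds_zero_of_lt_one (by norm_num) (by norm_num)).const_mul _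
  rw [mul_zero] at ht
  have h4 : ‖u‖ ≤ 0 := ge_of_tendsto ht ((eventually_gt_atTop 0).mono h3)
  exact norm_le_zero_iff.1 h4

theorem QN.intertwine' {w u ν : T} (hν : QN ν) (hw : IsUnit w) (h : u * w = ν * u) : u = 0 := by
  obtain ⟨w, rfl⟩ := hw
  have h1 : ∀ n : ℕ, u * (w : T) ^ n = ν ^ n * u := by
    intro n
    induction n with
    | zero => simp
    | succ n ih => rw [pow_succ', ← mul_assoc, h, mul_assoc, ih, ← mul_assoc, ← pow_succ']
  have h2 : ∀ n : ℕ, u = (ν ^ n * u) * ((w⁻¹ : Tˣ) : T) ^ n := by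
    intro n
    rw [← h1 n, mul_assoc, ← Units.val_pow_eq_pow_val, ← Units.val_pow_eq_pow_val,
      ← Units.val_mul, inv_pow, mul_inv_cancel, Units.val_one, mul_one]
  have hpos : 0 < ‖((w⁻¹ : Tˣ) : T)‖ + 1 := by positivity
  set K := ‖((w⁻¹ : Tˣ) : T)‖ + 1 with hK
  obtain ⟨C, hC0, hC⟩ := hν.nonneg_const (1 / (2 * K)) (by positivity)
  have h3 : ∀ n : ℕ, 0 < n → ‖u‖ ≤ (‖u‖ * C) * (1 / 2) ^ n := by
    intro n hn
    calc ‖u‖ = ‖(ν ^ n * u) * ((w⁻¹ : Tˣ) : T) ^ n‖ := by rw [← h2 n]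
      _ ≤ ‖ν ^ n * u‖ * ‖((w⁻¹ : Tˣ) : T) ^ n‖ := norm_mul_le _ _
      _ ≤ ((C * (1 / (2 * K)) ^ n) * ‖u‖) * K ^ n := by
          gcongr
          · exact (norm_mul_le _ _).trans (by gcongr; exact hC n)
          · exact (norm_pow_le' _ hn).trans (by gcongr; simp [hK])
      _ = (‖u‖ * C) * (1 / 2) ^ n := by
          rw [div_pow, div_pow, mul_pow]; field_simp
  have ht : Tendsto (fun n : ℕ => (‖u‖ * C) * (1 / 2 : ℝ) ^ n) atTop (𝓝 ((‖u‖ * C) * 0)) :=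
    (tendsto_pow_atTop_nhds_zero_of_lt_one (by norm_num) (by norm_num)).const_mul _
  rw [mul_zero] at ht
  have h4 : ‖u‖ ≤ 0 := ge_of_tendsto ht ((eventually_gt_atTop 0).mono h3)
  exact norm_le_zero_iff.1 h4

end Banach

end Pool.Agent.Lib.MP_b3782f_an.H79
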