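import Mathlib

set_option autoImplicit false

namespace Pool.Agent.Lib.MP_b3782f_an.H79

section Ring

variable {C : Type*} [Ring C] [Nontrivial C] (h : ∀ a : C, IsUnit a ∨ IsUnit (1 - a))

include h

theorem dedekind {x y : C} (hxy : x * y = 1) : y * x = 1 := by
  have hid : (y * x) * (y * x) = y * x := by
    rw [mul_assoc, ← mul_assoc x y x, hxy, one_mul]
  rcases h (y * x) with h1 | h1
  · obtain ⟨u, hu⟩ := h1
    rw [← hu] at hid ⊢
    calc (u : C) = ((u⁻¹ : Cˣ) : C) * (u * u) := by rw [← mul_assoc, Units.inv_mul, one_mul]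
      _ = 1 := by rw [hid, Units.inv_mul]
  · exfalso
    obtain ⟨u, hu⟩ := h1
    have h2 : (u : C) * (y * x) = 0 := by rw [hu, sub_mul, hid, one_mul, sub_self]
    have h3 : y * x = 0 := by
      calc y * x = ((u⁻¹ : Cˣ) : C) * (u * (y * x)) := by rw [← mul_assoc, Units.inv_mul, one_mul]
        _ = 0 := by rw [h2, mul_zero]
    have h4 : (1 : C) = 0 := by
      calc (1 : C) = (x * y) * (x * y) := by rw [hxy, one_mul]
        _ = x * (y * x) * y := by noncomm_ring
        _ = 0 := by rw [h3, mul_zero, zero_mul]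
    exact one_ne_zero h4

theorem nonunit_mul_right {a : C} (ha : ¬ IsUnit a) (b : C) : ¬ IsUnit (a * b) := by
  rintro ⟨u, hu⟩
  apply ha
  have h1 : a * (b * ((u⁻¹ : Cˣ) : C)) = 1 := by rw [← mul_assoc, ← hu, Units.mul_inv]
  exact isUnit_iff_exists.2 ⟨_, h1, dedekind h h1⟩

theorem nonunit_mul_left {a : C} (ha : ¬ IsUnit a) (b : C) : ¬ IsUnit (b * a) := by
  rintro ⟨u, hu⟩
  apply ha
  have h1 : (((u⁻¹ : Cˣ) : C) * b) * a = 1 := by rw [mul_assoc, ← hu, Units.inv_mul]
  exact isUnit_iff_exists.2 ⟨_, dedekind h h1, h1⟩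

theorem nonunit_add {a b : C} (ha : ¬ IsUnit a) (hb : ¬ IsUnit b) : ¬ IsUnit (a + b) := by
  rintro ⟨u, hu⟩
  have h1 : ((u⁻¹ : Cˣ) : C) * a + ((u⁻¹ : Cˣ) : C) * b = 1 := by
    rw [← mul_add, ← hu, Units.inv_mul]
  rcases h (((u⁻¹ : Cˣ) : C) * a) with h2 | h2
  · exact nonunit_mul_left h ha _ h2
  · rw [← h1, add_sub_cancel_left] at h2
    exact nonunit_mul_left h hb _ h2

end Ring

section Char

variable {C : Type*} [NormedRing C] [NormedAlgebra ℂ C] [CompleteSpace C] [Nontrivial C]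

theorem exists_char (h : ∀ a : C, IsUnit a ∨ IsUnit (1 - a)) :
    ∃ φ : C →ₐ[ℂ] ℂ, ∀ a, φ a ≠ 0 → IsUnit a := by
  have hex : ∀ a : C, ∃ l : ℂ, ¬ IsUnit (a - algebraMap ℂ C l) := by
    intro a
    obtain ⟨l, hl⟩ := spectrum.nonempty (A := C) a
    refine ⟨l, fun hu => hl ?_⟩
    rw [spectrum.mem_resolventSet_iff, ← neg_sub]
    exact hu.neg
  choose φ hφ using hex
  have huniq : ∀ (a : C) (l : ℂ), ¬ IsUnit (a - algebraMap ℂ C l) → φ a = l := by
    intro a l hl
    by_contra hne
    have h1 := nonunit_add h (hφ a) (show ¬ IsUnit (-(a - algebraMap ℂ C l)) from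
      fun hu => hl (by simpa using hu.neg))
    apply h1
    have h2 : a - algebraMap ℂ C (φ a) + -(a - algebraMap ℂ C l)
        = algebraMap ℂ C (l - φ a) := by
      rw [map_sub]; abel
    rw [h2]
    exact (isUnit_iff_ne_zero.2 (sub_ne_zero.2 (Ne.symm hne))).map _
  have hadd : ∀ a b, φ (a + b) = φ a + φ b := by
    intro a b
    apply huniq
    have h1 := nonunit_add h (hφ a) (hφ b)
    have h2 : a + b - algebraMap ℂ C (φ a + φ b)
        = (a - algebraMap ℂ C (φ a)) + (b - algebraMap ℂ C (φ b)) := by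
      rw [map_add]; abel
    rwa [h2]
  have hmul : ∀ a b, φ (a * b) = φ a * φ b := by
    intro a b
    apply huniq
    have h1 := nonunit_mul_right h (hφ a) b
    have h2 := nonunit_mul_left h (hφ b) (algebraMap ℂ C (φ a))
    have h3 := nonunit_add h h1 h2
    have h4 : a * b - algebraMap ℂ C (φ a * φ b)
        = (a - algebraMap ℂ C (φ a)) * b
          + algebraMap ℂ C (φ a) * (b - algebraMap ℂ C (φ b)) := by
      rw [map_mul]; noncomm_ring
    rwa [h4]
  have halg : ∀ l, φ (algebraMap ℂ C l) = l := by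
    intro l
    apply huniq
    rw [sub_self]
    exact not_isUnit_zero
  refine ⟨{ toFun := φ
            map_one' := by rw [← map_one (algebraMap ℂ C)]; exact halg 1
            map_mul' := hmul
            map_zero' := by rw [← map_zero (algebraMap ℂ C)]; exact halg 0
            map_add' := hadd
            commutes' := halg }, ?_⟩
  intro a ha
  by_contra hu
  apply ha
  change φ a = 0
  apply huniq
  rwa [map_zero, sub_zero]

end Char

end Pool.Agent.Lib.MP_b3782f_an.H79
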