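import Mathlib

set_option autoImplicit false

namespace Pool.Agent.Lib.MP_b3782f_an.H79

section Corner

variable {A : Type} [NormedRing A] [NormedAlgebra ℂ A]

/-- The corner `e A e` as a non-unital subalgebra. -/
def cornerSub (e : A) : NonUnitalSubalgebra ℂ A where
  carrier := {x | e * x = x ∧ x * e = x}
  add_mem' := by
    rintro a b ⟨ha1, ha2⟩ ⟨hb1, hb2⟩
    exact ⟨by rw [mul_add, ha1, hb1], by rw [add_mul, ha2, hb2]⟩
  zero_mem' := ⟨by rw [mul_zero], by rw [zero_mul]⟩
  mul_mem' := by
    rintro a b ⟨ha1, ha2⟩ ⟨hb1, hb2⟩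
    exact ⟨by rw [← mul_assoc, ha1], by rw [mul_assoc, hb2]⟩
  smul_mem' := by
    rintro c a ⟨ha1, ha2⟩
    exact ⟨by rw [mul_smul_comm, ha1], by rw [smul_mul_assoc, ha2]⟩

theorem mem_cornerSub {e x : A} : x ∈ cornerSub e ↔ e * x = x ∧ x * e = x := Iff.rfl

/-- The corner algebra `e A e` of an idempotent `e`. -/
def Cor (e : A) (_ : e * e = e) : Type := cornerSub e

variable {e : A} {he : e * e = e}

/-- The inclusion. -/
def Cor.val (x : Cor e he) : A := Subtype.val (p := fun x => x ∈ cornerSub e) x

theorem Cor.ext {x y : Cor e he} (h : x.val = y.val) : x = y := Subtype.ext h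

theorem Cor.left (x : Cor e he) : e * x.val = x.val :=
  (Subtype.property (p := fun x => x ∈ cornerSub e) x).1

theorem Cor.right (x : Cor e he) : x.val * e = x.val :=
  (Subtype.property (p := fun x => x ∈ cornerSub e) x).2

/-- Constructor. -/
def Cor.mk (x : A) (h1 : e * x = x) (h2 : x * e = x) : Cor e he := (⟨x, h1, h2⟩ : cornerSub e)

@[simp] theorem Cor.val_mk (x : A) (h1 : e * x = x) (h2 : x * e = x) :
    (Cor.mk x h1 h2 : Cor e he).val = x := rfl

/-- The compression `a ↦ e a e`. -/
def Cor.comp (he : e * e = e) (a : A) : Cor e he :=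
  Cor.mk (e * a * e) (by rw [← mul_assoc, ← mul_assoc, he]) (by rw [mul_assoc, he])

@[simp] theorem Cor.val_comp (a : A) : (Cor.comp he a).val = e * a * e := rfl

noncomputable instance : NonUnitalNormedRing (Cor e he) :=
  inferInstanceAs (NonUnitalNormedRing (cornerSub e))

noncomputable instance : Module ℂ (Cor e he) := inferInstanceAs (Module ℂ (cornerSub e))

instance : One (Cor e he) := ⟨Cor.mk e he he⟩

theorem Cor.val_one : ((1 : Cor e he)).val = e := rfl
theorem Cor.val_mul (x y : Cor e he) : (x * y).val = x.val * y.val := rfl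
theorem Cor.val_add (x y : Cor e he) : (x + y).val = x.val + y.val := rfl
theorem Cor.val_sub (x y : Cor e he) : (x - y).val = x.val - y.val := rfl
theorem Cor.val_neg (x : Cor e he) : (-x).val = -x.val := rfl
theorem Cor.val_zero : ((0 : Cor e he)).val = 0 := rfl
theorem Cor.val_smul (c : ℂ) (x : Cor e he) : (c • x).val = c • x.val := rfl
theorem Cor.norm_val (x : Cor e he) : ‖x.val‖ = ‖x‖ := rfl

noncomputable instance : NormedRing (Cor e he) :=
  { (inferInstance : NonUnitalNormedRing (Cor e he)),
    (inferInstance : One (Cor e he)) with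
    one_mul := fun x => Cor.ext (by rw [Cor.val_mul, Cor.val_one, Cor.left])
    mul_one := fun x => Cor.ext (by rw [Cor.val_mul, Cor.val_one, Cor.right]) }

noncomputable instance : Algebra ℂ (Cor e he) :=
  Algebra.ofModule (fun c x y => Cor.ext (by
      rw [Cor.val_mul, Cor.val_smul, Cor.val_smul, Cor.val_mul, smul_mul_assoc]))
    (fun c x y => Cor.ext (by
      rw [Cor.val_mul, Cor.val_smul, Cor.val_smul, Cor.val_mul, mul_smul_comm]))

noncomputable instance : NormedAlgebra ℂ (Cor e he) where
  norm_smul_le := fun c x => by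
    rw [← Cor.norm_val, ← Cor.norm_val, Cor.val_smul]
    exact norm_smul_le c x.val

theorem isClosed_cornerSub (e : A) : IsClosed (cornerSub e : Set A) := by
  have : (cornerSub e : Set A) = {x | e * x = x} ∩ {x | x * e = x} := rfl
  rw [this]
  exact (isClosed_eq (by fun_prop) continuous_id).inter (isClosed_eq (by fun_prop) continuous_id)

instance [CompleteSpace A] : CompleteSpace (Cor e he) :=
  (isClosed_cornerSub e).completeSpace_coe

theorem Cor.val_prod (l : List (Cor e he)) : (l.prod).val = e * (l.map Cor.val).prod := by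
  induction l with
  | nil => simp [Cor.val_one]
  | cons a l ih =>
    rw [List.prod_cons, Cor.val_mul, ih, List.map_cons, List.prod_cons, ← mul_assoc, a.right,
      ← mul_assoc, a.left]

theorem Cor.val_algebraMap (c : ℂ) : (algebraMap ℂ (Cor e he) c).val = c • e := by
  rw [Algebra.algebraMap_eq_smul_one, Cor.val_smul, Cor.val_one]

end Corner

end Pool.Agent.Lib.MP_b3782f_an.H79
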