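import Mathlib

set_option autoImplicit false

open Finset

namespace Pool.Agent.Lib.MP_b3782f_an.H79

section Deriv

variable {A : Type*} [Ring A] [Algebra ℂ A]

/-- Divided powers `δ ^ n / n!` of a linear map. -/
noncomputable def dp (δ : A →ₗ[ℂ] A) (n : ℕ) : A →ₗ[ℂ] A := ((n.factorial : ℂ)⁻¹) • δ ^ n

theorem dp_apply (δ : A →ₗ[ℂ] A) (n : ℕ) (a : A) :
    dp δ n a = ((n.factorial : ℂ)⁻¹) • (δ ^ n) a := rfl

@[simp] theorem dp_zero (δ : A →ₗ[ℂ] A) (a : A) : dp δ 0 a = a := by simp [dp_apply]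

theorem smul_dp_succ (δ : A →ₗ[ℂ] A) (n : ℕ) (a : A) :
    (((n + 1 : ℕ) : ℂ)) • dp δ (n + 1) a = δ (dp δ n a) := by
  rw [dp_apply, dp_apply, map_smul, smul_smul, pow_succ', Module.End.mul_apply]
  congr 1
  rw [Nat.factorial_succ, Nat.cast_mul, mul_inv, ← mul_assoc,
    mul_inv_cancel₀ (Nat.cast_ne_zero.2 (Nat.succ_ne_zero n)), one_mul]

theorem dp_map (δ : A →ₗ[ℂ] A) (n : ℕ) (a : A) : dp δ n (δ a) = δ (dp δ n a) := by
  rw [dp_apply, dp_apply, map_smul]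
  congr 1
  rw [← Module.End.mul_apply, ← Module.End.mul_apply, ← pow_succ, ← pow_succ']

theorem dp_succ_eq_of (δ : A →ₗ[ℂ] A) (n : ℕ) (a b : A)
    (h : (((n + 1 : ℕ) : ℂ)) • b = δ (dp δ n a)) : dp δ (n + 1) a = b := by
  have h1 := smul_dp_succ δ n a
  rw [← h] at h1
  have h2 : (((n + 1 : ℕ) : ℂ)) ≠ 0 := Nat.cast_ne_zero.2 (Nat.succ_ne_zero n)
  exact smul_right_injective A h2 h1

variable {δ : A →ₗ[ℂ] A} (hδ : ∀ a b : A, δ (a * b) = a * δ b + δ a * b)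

include hδ

/-- Weighted sum over the antidiagonal. -/
theorem dp_mul (n : ℕ) (a b : A) :
    dp δ n (a * b) = ∑ p ∈ antidiagonal n, dp δ p.1 a * dp δ p.2 b := by
  induction n with
  | zero => simp
  | succ n ih =>
    apply dp_succ_eq_of
    rw [ih, map_sum]
    have h1 : (((n + 1 : ℕ) : ℂ)) • ∑ p ∈ antidiagonal (n + 1), dp δ p.1 a * dp δ p.2 b
        = (∑ p ∈ antidiagonal (n + 1), ((p.1 : ℂ)) • (dp δ p.1 a * dp δ p.2 b))
          + ∑ p ∈ antidiagonal (n + 1), ((p.2 : ℂ)) • (dp δ p.1 a * dp δ p.2 b) := by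
      rw [Finset.smul_sum, ← Finset.sum_add_distrib]
      refine Finset.sum_congr rfl fun p hp => ?_
      rw [← add_smul, ← Nat.cast_add, mem_antidiagonal.1 hp]
    rw [h1, Finset.Nat.sum_antidiagonal_succ, Finset.Nat.sum_antidiagonal_succ']
    simp only [Nat.cast_zero, zero_smul, zero_add]
    rw [← Finset.sum_add_distrib]
    refine Finset.sum_congr rfl fun p hp => ?_
    rw [hδ, ← smul_mul_assoc, ← mul_smul_comm, smul_dp_succ, smul_dp_succ, add_comm]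

/-- The key identity behind `c · e^{-τδ}(x) = e^{-τδ}(e^{τδ}(c) x)`. -/
theorem mul_dp (j : ℕ) (c u : A) :
    c * dp δ j u = ∑ p ∈ antidiagonal j, ((-1 : ℂ) ^ p.1) • dp δ p.2 (dp δ p.1 c * u) := by
  induction j generalizing c with
  | zero => simp
  | succ j ih =>
    have hne : (((j + 1 : ℕ) : ℂ)) ≠ 0 := Nat.cast_ne_zero.2 (Nat.succ_ne_zero j)
    apply smul_right_injective A hne
    simp only
    have h1 : (((j + 1 : ℕ) : ℂ)) •
          ∑ p ∈ antidiagonal (j + 1), ((-1 : ℂ) ^ p.1) • dp δ p.2 (dp δ p.1 c * u)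
        = (∑ p ∈ antidiagonal (j + 1),
            ((-1 : ℂ) ^ p.1) • dp δ p.2 (((p.1 : ℂ) • dp δ p.1 c) * u))
          + ∑ p ∈ antidiagonal (j + 1),
            ((-1 : ℂ) ^ p.1) • (((p.2 : ℂ)) • dp δ p.2 (dp δ p.1 c * u)) := by
      rw [Finset.smul_sum, ← Finset.sum_add_distrib]
      refine Finset.sum_congr rfl fun p hp => ?_
      rw [smul_mul_assoc, map_smul, ← smul_add, ← add_smul, ← Nat.cast_add,
        mem_antidiagonal.1 hp, smul_comm]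
    rw [h1, Finset.Nat.sum_antidiagonal_succ, Finset.Nat.sum_antidiagonal_succ']
    simp only [Nat.cast_zero, zero_smul, zero_mul, smul_zero, zero_add, map_zero]
    have h2 : ∑ p ∈ antidiagonal j,
          ((-1 : ℂ) ^ (p.1 + 1)) • dp δ p.2 (((((p.1 + 1 : ℕ)) : ℂ) • dp δ (p.1 + 1) c) * u)
        = - (δ c * dp δ j u) := by
      rw [ih (δ c), ← Finset.sum_neg_distrib]
      refine Finset.sum_congr rfl fun p hp => ?_
      rw [smul_dp_succ, dp_map, pow_succ, mul_neg_one, neg_smul]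
    have h3 : ∑ p ∈ antidiagonal j,
          ((-1 : ℂ) ^ p.1) • ((((p.2 + 1 : ℕ)) : ℂ) • dp δ (p.2 + 1) (dp δ p.1 c * u))
        = δ (c * dp δ j u) := by
      rw [ih c, map_sum]
      refine Finset.sum_congr rfl fun p hp => ?_
      rw [smul_dp_succ, map_smul]
    rw [h2, h3, hδ, ← mul_smul_comm, smul_dp_succ]
    abel

/-- The inverse exponential, truncated at order `m`. -/
theorem mul_psi (m : ℕ) (c : A) (x : ℕ → A) :
    c * (∑ p ∈ antidiagonal m, ((-1 : ℂ) ^ p.1) • dp δ p.1 (x p.2))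
      = ∑ q ∈ antidiagonal m, ((-1 : ℂ) ^ q.1) • dp δ q.1
          (∑ r ∈ antidiagonal q.2, dp δ r.1 c * x r.2) := by
  have h1 : c * (∑ p ∈ antidiagonal m, ((-1 : ℂ) ^ p.1) • dp δ p.1 (x p.2))
      = ∑ p ∈ antidiagonal m, ∑ q ∈ antidiagonal p.1,
          ((-1 : ℂ) ^ q.2) • dp δ q.2 (dp δ q.1 c * x p.2) := by
    rw [Finset.mul_sum]
    refine Finset.sum_congr rfl fun p hp => ?_
    rw [mul_smul_comm, mul_dp hδ, Finset.smul_sum]
    refine Finset.sum_congr rfl fun q hq => ?_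
    rw [smul_smul, ← pow_add]
    congr 1
    have h2 : q.1 + q.2 = p.1 := mem_antidiagonal.1 hq
    have h3 : (-1 : ℂ) ^ (p.1 + q.1) = (-1) ^ (q.2 + 2 * q.1) := by
      congr 1; omega
    rw [h3, pow_add, pow_mul]
    norm_num
  rw [h1]
  simp only [map_sum, Finset.smul_sum, Finset.sum_sigma']
  refine Finset.sum_nbij' (fun z => ⟨(z.2.2, z.2.1 + z.1.2), (z.2.1, z.1.2)⟩)
    (fun z => ⟨(z.2.1 + z.1.1, z.2.2), (z.2.1, z.1.1)⟩) ?_ ?_ ?_ ?_ ?_
  · rintro ⟨⟨a, b⟩, ⟨c', d⟩⟩ hz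
    simp only [mem_sigma, HasAntidiagonal.mem_antidiagonal] at hz ⊢
    exact ⟨by omega, trivial⟩
  · rintro ⟨⟨a, b⟩, ⟨c', d⟩⟩ hz
    simp only [mem_sigma, HasAntidiagonal.mem_antidiagonal] at hz ⊢
    exact ⟨by omega, trivial⟩
  · rintro ⟨⟨a, b⟩, ⟨c', d⟩⟩ hz
    simp only [mem_sigma, HasAntidiagonal.mem_antidiagonal] at hz ⊢
    obtain ⟨h1, h2⟩ := hz
    subst h2
    rfl
  · rintro ⟨⟨a, b⟩, ⟨c', d⟩⟩ hz
    simp only [mem_sigma, HasAntidiagonal.mem_antidiagonal] at hz ⊢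
    obtain ⟨h1, h2⟩ := hz
    subst h2
    rfl
  · rintro ⟨⟨a, b⟩, ⟨c', d⟩⟩ hz
    rfl

end Deriv

end Pool.Agent.Lib.MP_b3782f_an.H79
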