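import Mathlib
import Pool.Agent.Lib.MP_b3782f_an.H79.BA

set_option autoImplicit false
set_option linter.unusedSectionVars false
open Filter Topology

namespace Pool.Agent.Lib.MP_b3782f_an.H79

section Banach
variable {T : Type*} [NormedRing T] [NormedAlgebra ℂ T] [CompleteSpace T]

theorem exists_sq_add (t : T) (ht : QN t) :
    ∃ u : T, u * u + u = t ∧ QN u ∧ ∀ w, Commute w t → Commute w u := by
  set a : ℕ → T := fun k => catalan k • (-t) ^ k with ha
  obtain ⟨C, hC0, hC⟩ := ht.neg.nonneg_const (1 / 8) (by norm_num)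
  have hbound : ∀ k, ‖a k‖ ≤ C * (1 / 2) ^ k := by
    intro k
    have hcat : (catalan k : ℝ) ≤ 4 ^ k := by
      have h1 : catalan k ≤ 4 ^ k := by
        rw [catalan_eq_centralBinom_div]
        exact (Nat.div_le_self _ _).trans (Nat.centralBinom_le_four_pow k)
      exact_mod_cast h1
    calc ‖a k‖ ≤ (catalan k : ℝ) * ‖(-t) ^ k‖ := norm_nsmul_le
      _ ≤ 4 ^ k * (C * (1 / 8) ^ k) := by
          gcongr
          exact hC k
      _ = C * (1 / 2) ^ k := by
          rw [mul_left_comm, ← mul_pow]; norm_num
  have hsn : Summable fun k => ‖a k‖ :=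
    Summable.of_nonneg_of_le (fun _ => norm_nonneg _) hbound
      ((summable_geometric_of_lt_one (by norm_num) (by norm_num)).mul_left C)
  have hs : Summable a := hsn.of_norm
  set c : T := ∑' k, a k with hc
  have hcomm : ∀ w, Commute w t → Commute w c := by
    intro w hw
    refine Commute.tsum_right w fun k => ?_
    exact ((hw.neg_right).pow_right k).smul_right _
  have hcc : c * c = ∑' n, catalan (n + 1) • (-t) ^ n := by
    rw [hc, tsum_mul_tsum_eq_tsum_sum_antidiagonal_of_summable_norm hsn hsn]
    congr 1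
    ext n
    rw [catalan_succ', Finset.sum_smul]
    refine Finset.sum_congr rfl fun p hp => ?_
    rw [Finset.HasAntidiagonal.mem_antidiagonal] at hp
    simp only [ha]
    rw [smul_mul_smul_comm, ← pow_add, hp]
  have hrec : c = 1 - t * (c * c) := by
    have h1 : c = a 0 + ∑' n, a (n + 1) := hs.tsum_eq_zero_add
    have h2 : ∀ n, a (n + 1) = (-t) * (catalan (n + 1) • (-t) ^ n) := by
      intro n
      simp only [ha]
      rw [pow_succ', mul_smul_comm]
    have h3 : Summable fun n => catalan (n + 1) • (-t) ^ n := by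
      have hb2 : ∀ k, ‖catalan (k + 1) • (-t) ^ k‖ ≤ (4 * C) * (1 / 2) ^ k := by
        intro k
        have hcat : (catalan (k + 1) : ℝ) ≤ 4 ^ (k + 1) := by
          have h1 : catalan (k + 1) ≤ 4 ^ (k + 1) := by
            rw [catalan_eq_centralBinom_div]
            exact (Nat.div_le_self _ _).trans (Nat.centralBinom_le_four_pow _)
          exact_mod_cast h1
        calc ‖catalan (k + 1) • (-t) ^ k‖ ≤ (catalan (k + 1) : ℝ) * ‖(-t) ^ k‖ := norm_nsmul_le
          _ ≤ 4 ^ (k + 1) * (C * (1 / 8) ^ k) := by
              gcongr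
              exact hC k
          _ = (4 * C) * (1 / 2) ^ k := by
              rw [pow_succ, show (1 / 2 : ℝ) = 4 * (1 / 8) by norm_num, mul_pow]; ring
      exact Summable.of_norm (Summable.of_nonneg_of_le (fun _ => norm_nonneg _) hb2
        ((summable_geometric_of_lt_one (by norm_num) (by norm_num)).mul_left (4 * C)))
    have h4 : ∑' n, a (n + 1) = (-t) * (c * c) := by
      rw [hcc, ← h3.tsum_mul_left]
      exact tsum_congr h2
    have h5 : a 0 = 1 := by simp [ha]
    rw [h4, h5] at h1
    rw [sub_eq_add_neg, ← neg_mul]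
    exact h1
  have htc : Commute t c := hcomm t (Commute.refl t)
  refine ⟨t * c, ?_, ht.mul_comm_right htc, fun w hw => hw.mul_right (hcomm w hw)⟩
  have h6 : c + t * (c * c) = 1 := by
    exact eq_sub_iff_add_eq.mp hrec
  calc t * c * (t * c) + t * c = t * (t * c * c) + t * c := by
        rw [mul_assoc t c (t * c), ← mul_assoc c t c, ← htc.eq]
    _ = t * (c + t * (c * c)) := by noncomm_ring
    _ = t := by rw [h6, mul_one]

/-- `e` is the spectral idempotent of `x` at `l` -/
structure Spec (x : T) (l : ℂ) (e : T) : Prop where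
  idem : e * e = e
  comm : Commute e x
  qn : QN ((x - algebraMap ℂ T l) * e)
  unit : IsUnit ((x - algebraMap ℂ T l) + e)

theorem Spec.half {x : T} {l : ℂ} {e e' : T} (h : Spec x l e) (h' : Spec x l e') :
    e = e' * e := by
  have hc : Commute e (x - algebraMap ℂ T l) :=
    h.comm.sub_right (Algebra.commutes l e).symm
  have hc' : Commute e' (x - algebraMap ℂ T l) :=
    h'.comm.sub_right (Algebra.commutes l e').symm
  set z := x - algebraMap ℂ T l with hz
  have h1 : (z + e') * ((1 - e') * e) = ((1 - e') * e) * (z * e) := by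
    have e1 : (z + e') * ((1 - e') * e) = z * (1 - e') * e := by
      have : e' * (1 - e') = 0 := by rw [mul_sub, mul_one, h'.idem, sub_self]
      calc (z + e') * ((1 - e') * e) = z * (1 - e') * e + (e' * (1 - e')) * e := by noncomm_ring
        _ = z * (1 - e') * e := by rw [this, zero_mul, add_zero]
    have e2 : z * (1 - e') = (1 - e') * z := ((Commute.one_left z).sub_left hc').eq.symm
    rw [e1, e2]
    calc (1 - e') * z * e = (1 - e') * (z * (e * e)) := by rw [h.idem, mul_assoc]
      _ = (1 - e') * ((z * e) * e) := by rw [mul_assoc z]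
      _ = (1 - e') * ((e * z) * e) := by rw [hc.eq]
      _ = ((1 - e') * e) * (z * e) := by noncomm_ring
  have h2 := h.qn.intertwine h'.unit h1
  rw [sub_mul, one_mul, sub_eq_zero] at h2
  exact h2

theorem Spec.half' {x : T} {l : ℂ} {e e' : T} (h : Spec x l e) (h' : Spec x l e') :
    e = e * e' := by
  have hc : Commute e (x - algebraMap ℂ T l) :=
    h.comm.sub_right (Algebra.commutes l e).symm
  have hc' : Commute e' (x - algebraMap ℂ T l) :=
    h'.comm.sub_right (Algebra.commutes l e').symm
  set z := x - algebraMap ℂ T l with hz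
  have h1 : (e * (1 - e')) * (z + e') = (z * e) * (e * (1 - e')) := by
    have e1 : (e * (1 - e')) * (z + e') = e * ((1 - e') * z) := by
      have : (1 - e') * e' = 0 := by rw [sub_mul, one_mul, h'.idem, sub_self]
      calc (e * (1 - e')) * (z + e') = e * ((1 - e') * z) + e * ((1 - e') * e') := by noncomm_ring
        _ = e * ((1 - e') * z) := by rw [this, mul_zero, add_zero]
    have e2 : (1 - e') * z = z * (1 - e') := ((Commute.one_left z).sub_left hc').eq
    rw [e1, e2]
    calc e * (z * (1 - e')) = (e * z) * (1 - e') := by rw [mul_assoc]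
      _ = (z * e) * (1 - e') := by rw [hc.eq]
      _ = (z * (e * e)) * (1 - e') := by rw [h.idem]
      _ = (z * e) * (e * (1 - e')) := by noncomm_ring
  have h2 := h.qn.intertwine' h'.unit h1
  rw [mul_sub, mul_one, sub_eq_zero] at h2
  exact h2

theorem Spec.unique {x : T} {l : ℂ} {e e' : T} (h : Spec x l e) (h' : Spec x l e') :
    e = e' := by
  have h1 := h.half' h'
  have h2 := h'.half h
  rw [h1, ← h2]

theorem qn_aeval [Nontrivial T] (x : T) (P : Polynomial ℂ)
    (hP : ∀ μ ∈ spectrum ℂ x, P.eval μ = 0) : QN (Polynomial.aeval x P) := by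
  refine qn_of_spectrum _ fun w hw => ?_
  rw [spectrum.map_polynomial_aeval x P] at hw
  obtain ⟨μ, hμ, rfl⟩ := hw
  exact hP μ hμ

theorem isUnit_aeval [Nontrivial T] (x : T) (P : Polynomial ℂ)
    (hP : ∀ μ ∈ spectrum ℂ x, P.eval μ ≠ 0) : IsUnit (Polynomial.aeval x P) := by
  rw [← spectrum.zero_notMem_iff ℂ, spectrum.map_polynomial_aeval x P]
  rintro ⟨μ, hμ, h0⟩
  exact hP μ hμ h0

theorem exists_spec [Nontrivial T] (x : T) (hfin : (spectrum ℂ x).Finite) (l : ℂ) :
    ∃ e, Spec x l e := by
  classical
  set F : Finset ℂ := hfin.toFinset.erase l with hF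
  set g : Polynomial ℂ := ∏ μ ∈ F, (Polynomial.X - Polynomial.C μ) with hg
  have hgl : g.eval l ≠ 0 := by
    rw [hg, Polynomial.eval_prod, Finset.prod_ne_zero_iff]
    intro μ hμ
    rw [hF, Finset.mem_erase] at hμ
    simp only [Polynomial.eval_sub, Polynomial.eval_X, Polynomial.eval_C]
    exact sub_ne_zero.2 (Ne.symm hμ.1)
  set h : Polynomial ℂ := Polynomial.C (g.eval l)⁻¹ * g with hh
  have hhl : h.eval l = 1 := by
    rw [hh, Polynomial.eval_mul, Polynomial.eval_C, inv_mul_cancel₀ hgl]
  have hhm : ∀ μ ∈ spectrum ℂ x, μ ≠ l → h.eval μ = 0 := by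
    intro μ hμ hne
    have hμF : μ ∈ F := by
      rw [hF, Finset.mem_erase]; exact ⟨hne, hfin.mem_toFinset.2 hμ⟩
    have hgm : g.eval μ = 0 := by
      rw [hg, Polynomial.eval_prod]
      exact Finset.prod_eq_zero hμF (by simp)
    rw [hh, Polynomial.eval_mul, hgm, mul_zero]
  set y : T := Polynomial.aeval x h with hy
  set z : T := x - algebraMap ℂ T l with hz
  have hzp : z = Polynomial.aeval x (Polynomial.X - Polynomial.C l) := by
    rw [map_sub, Polynomial.aeval_X, Polynomial.aeval_C]
  -- commuting with x implies commuting with y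
  have hyc : ∀ w, Commute w x → Commute w y := by
    intro w hw
    rw [hy]
    induction h using Polynomial.induction_on' with
    | add p q hp hq => rw [map_add]; exact hp.add_right hq
    | monomial n a =>
      rw [Polynomial.aeval_monomial]
      exact Commute.mul_right (Algebra.commutes a w).symm (hw.pow_right n)
  have hyx : Commute x y := hyc x (Commute.refl x)
  set n : T := y * y - y with hn
  have hnQ : QN n := by
    have h1 : n = Polynomial.aeval x (h * h - h) := by
      rw [hn, map_sub, map_mul]
    rw [h1]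
    refine qn_aeval x _ fun μ hμ => ?_
    by_cases hml : μ = l
    · rw [hml, Polynomial.eval_sub, Polynomial.eval_mul, hhl]; norm_num
    · rw [Polynomial.eval_sub, Polynomial.eval_mul, hhm μ hμ hml]; norm_num
  have hnc : ∀ w, Commute w x → Commute w n := fun w hw =>
    ((hyc w hw).mul_right (hyc w hw)).sub_right (hyc w hw)
  have h4 : (4 : ℂ) • n = 4 * n := by rw [Algebra.smul_def, map_ofNat]
  obtain ⟨v, hv⟩ := (hnQ.smul 4).isUnit_one_add
  rw [h4] at hv
  have hvc : ∀ w, Commute w x → Commute w (v : T) := by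
    intro w hw
    rw [hv, ← h4]
    exact (Commute.one_right w).add_right ((hnc w hw).smul_right _)
  have hvic : ∀ w, Commute w x → Commute w ((v⁻¹ : Tˣ) : T) := fun w hw =>
    (hvc w hw).units_inv_right
  set t : T := -(n * ((v⁻¹ : Tˣ) : T)) with ht
  have htc : ∀ w, Commute w x → Commute w t := fun w hw =>
    ((hnc w hw).mul_right (hvic w hw)).neg_right
  have htQ : QN t := (hnQ.mul_comm_right (hvic n (hnc x (Commute.refl x)).symm)).neg
  obtain ⟨u, hu, huQ, huc'⟩ := exists_sq_add t htQ
  have huc : ∀ w, Commute w x → Commute w u := fun w hw => huc' w (htc w hw)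
  have hyu : y * u = u * y := (huc y hyx.symm).eq
  have hkey : (1 + 4 * n) * (u * u + u) = -n := by
    rw [hu, ← hv, ht, mul_neg, ← mul_assoc, ← (hvc n (hnc x (Commute.refl x)).symm).eq, mul_assoc,
      Units.mul_inv, mul_one]
  set e : T := y + (2 * y - 1) * u with he
  have hyc2 : ∀ w, Commute w x → Commute w (2 * y - 1) := fun w hw =>
    ((Commute.ofNat_right w 2).mul_right (hyc w hw)).sub_right (Commute.one_right w)
  have hec : ∀ w, Commute w x → Commute w e := fun w hw =>
    (hyc w hw).add_right ((hyc2 w hw).mul_right (huc w hw))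
  have hex : Commute e x := (hec x (Commute.refl x)).symm
  have hidem : e * e = e := by
    have h1 : e * e - e = n + (1 + 4 * n) * (u * u + u) + (2 * y - 1) * (u * y - y * u)
        + (2 * y - 1) * ((2 * (u * y - y * u)) * u) := by
      rw [he, hn]; noncomm_ring
    rw [hkey, hyu, sub_self] at h1
    rw [← sub_eq_zero, h1]; noncomm_ring
  set w : T := y - e with hw
  have hwQ : QN w := by
    have h1 : w = -((2 * y - 1) * u) := by rw [hw, he]; noncomm_ring
    rw [h1]
    exact (huQ.mul_comm_left (huc (2 * y - 1) (hyc2 x (Commute.refl x)).symm).symm).neg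
  have hwc : ∀ a, Commute a x → Commute a w := fun a ha => (hyc a ha).sub_right (hec a ha)
  have hzx : Commute z x := (Commute.refl x).sub_left (Algebra.commutes l x)
  refine ⟨e, hidem, hex, ?_, ?_⟩
  · obtain ⟨q, hq⟩ := hwQ.isUnit_one_add
    have hqc : ∀ a, Commute a x → Commute a (q : T) := fun a ha => by
      rw [hq]; exact (Commute.one_right a).add_right (hwc a ha)
    have hqic : ∀ a, Commute a x → Commute a ((q⁻¹ : Tˣ) : T) := fun a ha =>
      (hqc a ha).units_inv_right
    have h1 : y * e = (q : T) * e := by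
      rw [hq, hw, add_mul, one_mul, sub_mul, hidem]; abel
    have h2 : e = ((q⁻¹ : Tˣ) : T) * (y * e) := by
      rw [h1, ← mul_assoc, Units.inv_mul, one_mul]
    have h3 : z * e = (z * y) * (((q⁻¹ : Tˣ) : T) * e) := by
      conv_lhs => rw [h2]
      rw [← mul_assoc ((q⁻¹ : Tˣ) : T) y e, ← (hqic y hyx.symm).eq]
      noncomm_ring
    rw [h3]
    have hzyQ : QN (z * y) := by
      rw [hzp, hy, ← map_mul]
      refine qn_aeval x _ fun μ hμ => ?_
      by_cases hml : μ = l
      · rw [hml]; simp
      · rw [Polynomial.eval_mul, hhm μ hμ hml, mul_zero]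
    have hzyx : Commute (z * y) x := hzx.mul_left hyx.symm
    exact hzyQ.mul_comm_right ((hqic _ hzyx).mul_right (hec _ hzyx))
  · have hqu : IsUnit (z + y) := by
      rw [hzp, hy, ← map_add]
      refine isUnit_aeval x _ fun μ hμ => ?_
      by_cases hml : μ = l
      · rw [hml]; simp [hhl]
      · rw [Polynomial.eval_add, hhm μ hμ hml]
        simpa using sub_ne_zero.2 hml
    obtain ⟨q, hq⟩ := hqu
    have hqic : ∀ a, Commute a x → Commute a ((q⁻¹ : Tˣ) : T) := fun a ha => by
      have : Commute a (q : T) := by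
        rw [hq]
        exact (ha.sub_right (Algebra.commutes l a).symm).add_right (hyc a ha)
      exact this.units_inv_right
    have h1 : z + e = (q : T) * (1 - ((q⁻¹ : Tˣ) : T) * w) := by
      rw [mul_sub, mul_one, ← mul_assoc, Units.mul_inv, one_mul, hq, hw]; abel
    rw [h1]
    have hwx : Commute w x := (hwc x (Commute.refl x)).symm
    exact q.isUnit.mul (hwQ.mul_comm_left (hqic w hwx)).isUnit_one_sub

end Banach

end Pool.Agent.Lib.MP_b3782f_an.H79
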