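import Pool.Agent.Lib.MP_b3782f_an.H79.Quot
import Pool.Agent.Lib.MP_b3782f_an.H79.Spec

set_option autoImplicit false

open Filter Topology Finset

namespace Pool.Agent.Lib.MP_b3782f_an.H79

theorem finite_of_frontier_finite (K : Set ℂ) (hK : IsCompact K) (hf : (frontier K).Finite) :
    K.Finite := by
  have hcon : IsPreconnected (frontier K)ᶜ := by
    refine (Set.Countable.isConnected_compl_of_one_lt_rank ?_ hf.countable).isPreconnected
    rw [Complex.rank_real_complex]
    exact Cardinal.one_lt_two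
  have hcl : IsClosed K := hK.isClosed
  have hsub : (frontier K)ᶜ ⊆ interior K ∪ Kᶜ := by
    intro x hx
    by_cases hxK : x ∈ K
    · left
      by_contra hxi
      exact hx ⟨subset_closure hxK, hxi⟩
    · right; exact hxK
  have hdis : Disjoint (interior K) Kᶜ :=
    Set.disjoint_left.2 fun x hx hx' => hx' (interior_subset hx)
  rcases isPreconnected_iff_subset_of_disjoint.1 hcon _ _ isOpen_interior hcl.isOpen_compl hsub
    (by rw [hdis.inter_eq, Set.inter_empty]) with h | h
  · exfalso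
    have huniv : K = Set.univ := by
      refine Set.eq_univ_of_forall fun x => ?_
      by_cases hx : x ∈ frontier K
      · exact hcl.frontier_subset hx
      · exact interior_subset (h hx)
    rw [huniv] at hK
    exact noncompact_univ ℂ hK
  · refine hf.subset fun x hx => ?_
    by_contra hx'
    exact h hx' hx

section FinSpec

variable {A : Type} [NormedRing A] [NormedAlgebra ℂ A]

theorem bound_sum {ι : Type*} (s : Finset ι) (p : Seminorm ℂ A) (f : ι → A → A)
    (h : ∀ i ∈ s, ∃ K : ℝ, ∀ x, p (f i x) ≤ K * ‖x‖) :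
    ∃ K : ℝ, ∀ x, p (∑ i ∈ s, f i x) ≤ K * ‖x‖ := by
  classical
  induction s using Finset.induction_on with
  | empty => exact ⟨0, fun x => by simp⟩
  | insert i s his ih =>
    obtain ⟨K1, hK1⟩ := h i (Finset.mem_insert_self i s)
    obtain ⟨K2, hK2⟩ := ih fun j hj => h j (Finset.mem_insert_of_mem hj)
    refine ⟨K1 + K2, fun x => ?_⟩
    rw [Finset.sum_insert his]
    calc p (f i x + ∑ j ∈ s, f j x) ≤ p (f i x) + p (∑ j ∈ s, f j x) := map_add_le_add _ _ _
      _ ≤ K1 * ‖x‖ + K2 * ‖x‖ := add_le_add (hK1 x) (hK2 x)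
      _ = (K1 + K2) * ‖x‖ := by ring

/-- `δ ^ j` is continuous modulo the radical for `j < n`. -/
def LowCont (δ : A →ₗ[ℂ] A) (n : ℕ) : Prop :=
  ∀ j < n, ∃ C : ℝ, 0 ≤ C ∧ ∀ x, dsn (jac A) (dp δ j x) ≤ C * ‖x‖

/-- The separating space of `δ ^ n / n!` modulo the radical. -/
def SS (δ : A →ₗ[ℂ] A) (n : ℕ) : Set A :=
  {y | ∃ x : ℕ → A, Tendsto x atTop (𝓝 0) ∧
    Tendsto (fun k => dsn (jac A) (dp δ n (x k) - y)) atTop (𝓝 0)}

variable {δ : A →ₗ[ℂ] A} (hδ : ∀ a b : A, δ (a * b) = a * δ b + δ a * b)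

include hδ

theorem dp_mul_right_bound {n : ℕ} (hc : LowCont δ n) {M : Ideal A} (hM : jac A ≤ M) (b : A) :
    ∃ K : ℝ, ∀ x, dsn M (dp δ n (x * b) - dp δ n x * b) ≤ K * ‖x‖ := by
  have h1 : ∀ x, dp δ n (x * b) - dp δ n x * b
      = ∑ p ∈ (antidiagonal n).erase (n, 0), dp δ p.1 x * dp δ p.2 b := by
    intro x
    rw [dp_mul hδ, ← Finset.add_sum_erase (antidiagonal n) _
      (HasAntidiagonal.mem_antidiagonal.2 (by simp : (n, 0).1 + (n, 0).2 = n))]
    simp
  simp only [h1]
  refine bound_sum ((antidiagonal n).erase (n, 0)) (dsn M)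
    (fun (p : ℕ × ℕ) (x : A) => dp δ p.1 x * dp δ p.2 b) fun p hp => ?_
  rw [Finset.mem_erase, HasAntidiagonal.mem_antidiagonal] at hp
  have hlt : p.1 < n := by
    by_contra hcon
    apply hp.1
    ext
    · simp; omega
    · simp; omega
  obtain ⟨C, -, hC⟩ := hc p.1 hlt
  refine ⟨C * ‖dp δ p.2 b‖, fun x => ?_⟩
  calc dsn M (dp δ p.1 x * dp δ p.2 b) ≤ dsn (jac A) (dp δ p.1 x) * ‖dp δ p.2 b‖ :=
        dsn_mul_right hM (fun r hr b => jac_mul_right hr b) _ _
    _ ≤ (C * ‖x‖) * ‖dp δ p.2 b‖ := by gcongr; exact hC x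
    _ = _ := by ring

theorem dp_mul_left_bound {n : ℕ} (hc : LowCont δ n) (a : A) :
    ∃ K : ℝ, ∀ x, dsn (jac A) (dp δ n (a * x) - a * dp δ n x) ≤ K * ‖x‖ := by
  have h1 : ∀ x, dp δ n (a * x) - a * dp δ n x
      = ∑ p ∈ (antidiagonal n).erase (0, n), dp δ p.1 a * dp δ p.2 x := by
    intro x
    rw [dp_mul hδ, ← Finset.add_sum_erase (antidiagonal n) _
      (HasAntidiagonal.mem_antidiagonal.2 (by simp : (0, n).1 + (0, n).2 = n))]
    simp
  simp only [h1]
  refine bound_sum ((antidiagonal n).erase (0, n)) (dsn (jac A))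
    (fun (p : ℕ × ℕ) (x : A) => dp δ p.1 a * dp δ p.2 x) fun p hp => ?_
  rw [Finset.mem_erase, HasAntidiagonal.mem_antidiagonal] at hp
  have hlt : p.2 < n := by
    by_contra hcon
    apply hp.1
    ext
    · simp; omega
    · simp; omega
  obtain ⟨C, -, hC⟩ := hc p.2 hlt
  refine ⟨‖dp δ p.1 a‖ * C, fun x => ?_⟩
  calc dsn (jac A) (dp δ p.1 a * dp δ p.2 x) ≤ ‖dp δ p.1 a‖ * dsn (jac A) (dp δ p.2 x) :=
        dsn_mul_left _ _ _
    _ ≤ ‖dp δ p.1 a‖ * (C * ‖x‖) := by gcongr; exact hC x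
    _ = _ := by ring

theorem seq_mul_left {n : ℕ} (hc : LowCont δ n) {x : ℕ → A} {y : A}
    (hx1 : Tendsto x atTop (𝓝 0))
    (hx2 : Tendsto (fun k => dsn (jac A) (dp δ n (x k) - y)) atTop (𝓝 0)) (a : A) :
    Tendsto (fun k => dsn (jac A) (dp δ n (a * x k) - a * y)) atTop (𝓝 0) := by
  obtain ⟨K, hK⟩ := dp_mul_left_bound hδ hc a
  refine squeeze_zero (fun _ => apply_nonneg _ _) (g := fun k => K * ‖x k‖ +
    ‖a‖ * dsn (jac A) (dp δ n (x k) - y)) (fun k => ?_) ?_
  · have h1 : dp δ n (a * x k) - a * y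
        = (dp δ n (a * x k) - a * dp δ n (x k)) + a * (dp δ n (x k) - y) := by noncomm_ring
    rw [h1]
    exact (map_add_le_add _ _ _).trans (add_le_add (hK _) (dsn_mul_left _ _ _))
  · have h1 := (hx1.norm.const_mul K).add (hx2.const_mul ‖a‖)
    simpa using h1

theorem seq_mul_right {n : ℕ} (hc : LowCont δ n) {x : ℕ → A} {y : A}
    (hx1 : Tendsto x atTop (𝓝 0))
    (hx2 : Tendsto (fun k => dsn (jac A) (dp δ n (x k) - y)) atTop (𝓝 0)) (b : A) :
    Tendsto (fun k => dsn (jac A) (dp δ n (x k * b) - y * b)) atTop (𝓝 0) := by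
  obtain ⟨K, hK⟩ := dp_mul_right_bound hδ hc le_rfl b
  refine squeeze_zero (fun _ => apply_nonneg _ _) (g := fun k => K * ‖x k‖ +
    dsn (jac A) (dp δ n (x k) - y) * ‖b‖) (fun k => ?_) ?_
  · have h1 : dp δ n (x k * b) - y * b
        = (dp δ n (x k * b) - dp δ n (x k) * b) + (dp δ n (x k) - y) * b := by noncomm_ring
    rw [h1]
    exact (map_add_le_add _ _ _).trans (add_le_add (hK _)
      (dsn_mul_right le_rfl (fun r hr b => jac_mul_right hr b) _ _))
  · have h1 := (hx1.norm.const_mul K).add (hx2.mul_const ‖b‖)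
    simpa using h1

theorem SS.mul_left {n : ℕ} (hc : LowCont δ n) {y : A} (hy : y ∈ SS δ n) (a : A) :
    a * y ∈ SS δ n := by
  obtain ⟨x, hx1, hx2⟩ := hy
  exact ⟨fun k => a * x k, by simpa using hx1.const_mul a, seq_mul_left hδ hc hx1 hx2 a⟩

theorem SS.mul_right {n : ℕ} (hc : LowCont δ n) {y : A} (hy : y ∈ SS δ n) (b : A) :
    y * b ∈ SS δ n := by
  obtain ⟨x, hx1, hx2⟩ := hy
  exact ⟨fun k => x k * b, by simpa using hx1.mul_const b, seq_mul_right hδ hc hx1 hx2 b⟩

omit hδ

/-- At boundary points of the spectrum `s - l` has no left inverse. -/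
theorem not_left_inv [CompleteSpace A] {s : A} {l : ℂ} (hl : l ∈ frontier (spectrum ℂ s)) (a : A) :
    a * (s - algebraMap ℂ A l) ≠ 1 := by
  intro ha
  have hcl : IsClosed (spectrum ℂ s) := spectrum.isClosed s
  have hlsp : l ∈ spectrum ℂ s := hcl.frontier_subset hl
  have hl2 : l ∈ closure (spectrum ℂ s)ᶜ := by
    rw [frontier_eq_closure_inter_closure] at hl
    exact hl.2
  -- `z ↦ a * (s - z)` is a unit near `l`
  have h1 : ContinuousAt (fun z : ℂ => a * (s - algebraMap ℂ A z)) l := by fun_prop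
  have h2 : {x : A | IsUnit x} ∈ 𝓝 (a * (s - algebraMap ℂ A l)) := by
    rw [ha]
    exact Units.isOpen.mem_nhds isUnit_one
  have h3 := h1 h2
  obtain ⟨z, hz1, hz2⟩ := mem_closure_iff_nhds.1 hl2 _ h3
  have hz3 : IsUnit (a * (s - algebraMap ℂ A z)) := hz1
  have hz4 : IsUnit (algebraMap ℂ A z - s) := by
    by_contra h
    exact hz2 h
  have hz5 : IsUnit (s - algebraMap ℂ A z) := by
    rw [← neg_sub]
    exact hz4.neg
  have ha2 : IsUnit a := by
    obtain ⟨v, hv⟩ := hz5
    rw [← hv] at hz3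
    have : a = a * (v : A) * ((v⁻¹ : Aˣ) : A) := by rw [mul_assoc, Units.mul_inv, mul_one]
    rw [this]
    exact hz3.mul (v⁻¹).isUnit
  have h4 : IsUnit (s - algebraMap ℂ A l) := by
    obtain ⟨v, rfl⟩ := ha2
    have : s - algebraMap ℂ A l = ((v⁻¹ : Aˣ) : A) := by
      calc s - algebraMap ℂ A l = ((v⁻¹ : Aˣ) : A) * (v * (s - algebraMap ℂ A l)) := by
            rw [← mul_assoc, Units.inv_mul, one_mul]
        _ = _ := by rw [ha, mul_one]
    rw [this]
    exact (v⁻¹).isUnit
  apply hlsp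
  rw [spectrum.mem_resolventSet_iff, ← neg_sub]
  exact h4.neg

theorem exists_maximal [CompleteSpace A] {s : A} {l : ℂ}
    (hl : l ∈ frontier (spectrum ℂ s)) :
    ∃ M : Ideal A, M.IsMaximal ∧ s - algebraMap ℂ A l ∈ M := by
  have h1 : Ideal.span {s - algebraMap ℂ A l} ≠ ⊤ := by
    intro h
    rw [Ideal.eq_top_iff_one, Ideal.mem_span_singleton'] at h
    obtain ⟨a, ha⟩ := h
    exact not_left_inv hl a ha
  obtain ⟨M, hM, hM2⟩ := Ideal.exists_le_maximal _ h1
  exact ⟨M, hM, hM2 (Ideal.mem_span_singleton_self _)⟩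

include hδ

/-- **Finite spectrum.** -/
theorem finite_spectrum [CompleteSpace A] {n : ℕ} (hc : LowCont δ n) {s : A} (hs : s ∈ SS δ n) :
    (spectrum ℂ s).Finite := by
  classical
  refine finite_of_frontier_finite _ (spectrum.isCompact s) ?_
  by_contra hinf
  have hinf2 : (frontier (spectrum ℂ s) \ {0}).Infinite :=
    Set.Infinite.sdiff hinf (Set.finite_singleton 0)
  set lam : ℕ → ℂ := fun k => (hinf2.natEmbedding _ k : ℂ) with hlam
  have hlamF : ∀ k, lam k ∈ frontier (spectrum ℂ s) := fun k => (hinf2.natEmbedding _ k).2.1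
  have hlam0 : ∀ k, lam k ≠ 0 := fun k => (hinf2.natEmbedding _ k).2.2
  have hinj : Function.Injective lam := fun a b hab =>
    (hinf2.natEmbedding _).injective (Subtype.ext hab)
  choose M hM hMs using fun k => exists_maximal (hlamF k)
  have hJM : ∀ k, jac A ≤ M k := fun k => jac_le_maximal (hM k)
  have hMcl : ∀ k, IsClosed (M k : Set A) := fun k => by
    have := hM k
    exact Ideal.IsMaximal.isClosed
  let d : ℕ → A := fun k => s - algebraMap ℂ A (lam k)
  have hdc : ∀ k x, Commute x s → Commute x (d k) := fun k x hx =>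
    hx.sub_right (Algebra.commutes (lam k) x).symm
  let c : ℕ → A := fun k => Nat.rec 1 (fun j cj => d j * cj) k
  have hc0 : c 0 = 1 := rfl
  have hcS : ∀ k, c (k + 1) = d k * c k := fun k => rfl
  have hcs : ∀ k, Commute (c k) s := by
    intro k
    induction k with
    | zero => exact Commute.one_left s
    | succ k ih =>
      rw [hcS]
      exact ((hdc k s (Commute.refl s)).symm).mul_left ih
  have hcd : ∀ k j, Commute (c k) (d j) := fun k j => hdc j _ (hcs k)
  -- F1
  have hF1 : ∀ k a, a * c (k + 1) ∈ M k := by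
    intro k a
    rw [hcS, ← (hcd k k).eq, ← mul_assoc]
    exact (M k).mul_mem_left _ (hMs k)
  -- F2
  let γ : ℕ → ℕ → ℂ := fun k j => ∏ i ∈ Finset.range j, (lam k - lam i)
  have hγ : ∀ k, γ k k ≠ 0 := by
    intro k
    rw [Finset.prod_ne_zero_iff]
    intro i hi
    rw [Finset.mem_range] at hi
    exact sub_ne_zero.2 fun h => hi.ne' (hinj h)
  have hF2 : ∀ k j a, a * c j - γ k j • a ∈ M k := by
    intro k j
    induction j with
    | zero => intro a; simp [hc0, γ]
    | succ j ih =>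
      intro a
      have h1 := ih a
      have h2 : γ k (j + 1) = γ k j * (lam k - lam j) := Finset.prod_range_succ _ _
      have h3 : a * c (j + 1) - γ k (j + 1) • a
          = a * c j * (s - algebraMap ℂ A (lam k)) + (lam k - lam j) • (a * c j - γ k j • a) := by
        rw [hcS, ← (hcd j j).eq, h2, smul_sub, smul_smul, mul_comm (γ k j)]
        have h4 : d j = (s - algebraMap ℂ A (lam k)) + algebraMap ℂ A (lam k - lam j) := by
          simp only [d, map_sub]
          abel
        have h5 : a * c j * algebraMap ℂ A (lam k - lam j) = (lam k - lam j) • (a * c j) := by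
          rw [Algebra.smul_def, Algebra.commutes]
        rw [← mul_assoc, h4, mul_add, h5]
        abel
      rw [h3]
      refine (M k).add_mem ((M k).mul_mem_left _ (hMs k)) ?_
      rw [Algebra.smul_def]
      exact (M k).mul_mem_left _ h1
  -- the seminorms
  let N : ℕ → Seminorm ℂ A := fun k => (dsn (M k)).comp (dp δ n)
  have hN : ∀ k x, N k x = dsn (M k) (dp δ n x) := fun _ _ => rfl
  have hb := fun k b => dp_mul_right_bound hδ hc (hJM k) b
  suffices hex : ∃ x : A, ∀ k : ℕ, (k : ℝ) ≤ N k x by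
    obtain ⟨x, hx⟩ := hex
    obtain ⟨k, hk⟩ := exists_nat_gt ‖dp δ n x‖
    have h1 := hx k
    rw [hN] at h1
    have h2 := dsn_le_norm (M k) (dp δ n x)
    linarith
  have hws : WithSeminorms (fun _ : ℕ => normSeminorm ℂ A) :=
    (norm_withSeminorms ℂ A).congr (fun _ => ⟨{0}, 1, by simp⟩) (fun _ => ⟨{0}, 1, by simp⟩)
  refine Pool.Agent.Lib.MP_74fee8_an.hump_gen (A := A)
    (p := fun _ => normSeminorm ℂ A) hws (fun _ _ _ => le_rfl)
    (fun k => LinearMap.mulRight ℂ (d k)) (fun k => LinearMap.mulRight ℂ (c k))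
    ?_ ?_ ?_ N ?_ ?_
  · intro k
    change Continuous fun y : A => y * d k
    fun_prop
  · ext y
    simp [hc0]
  · intro k
    ext y
    simp [hcS, mul_assoc]
  · intro k ε hε
    obtain ⟨K, hK⟩ := hb k (c (k + 1))
    have h1 : ∀ y : A, N k (y * c (k + 1)) ≤ K * ‖y‖ := by
      intro y
      rw [hN]
      have h2 : dsn (M k) (dp δ n (y * c (k + 1)))
          = dsn (M k) (dp δ n (y * c (k + 1)) - dp δ n y * c (k + 1)) := by
        apply dsn_congr
        rw [sub_sub_cancel]
        exact hF1 k _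
      rw [h2]
      exact hK y
    have h2 : Tendsto (fun y : A => K * ‖y‖) (𝓝 0) (𝓝 0) := by
      have := (continuous_norm.tendsto (0 : A)).const_mul K
      simpa using this
    filter_upwards [h2.eventually (gt_mem_nhds hε)] with y hy
    exact (h1 y).trans_lt hy
  · intro k U hU K0
    obtain ⟨x, hx1, hx2⟩ := hs
    obtain ⟨K, hK⟩ := hb k (c k)
    -- limit of `N k (x i * c k)`
    set ρ : ℝ := ‖γ k k‖ * dsn (M k) s with hρ
    have hs0 : 0 < dsn (M k) s := by
      rcases (apply_nonneg (dsn (M k)) s).lt_or_eq with h | h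
      · exact h
      · exfalso
        have h2 := mem_of_dsn_eq_zero (hMcl k) h.symm
        have h3 : algebraMap ℂ A (lam k) ∈ M k := by
          have := (M k).sub_mem h2 (hMs k)
          rwa [sub_sub_cancel] at this
        have h4 : IsUnit (algebraMap ℂ A (lam k)) := (isUnit_iff_ne_zero.2 (hlam0 k)).map _
        exact (hM k).ne_top ((M k).eq_top_of_isUnit_mem h3 h4)
    have hρ0 : 0 < ρ := mul_pos (norm_pos_iff.2 (hγ k)) hs0
    have hlim : Tendsto (fun i => N k (x i * c k)) atTop (𝓝 ρ) := by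
      have h5 : ∀ i, |N k (x i * c k) - ρ| ≤ K * ‖x i‖ + ‖γ k k‖ *
          dsn (jac A) (dp δ n (x i) - s) := by
        intro i
        rw [hN]
        have h6 : dsn (M k) (dp δ n (x i) * c k) = ‖γ k k‖ * dsn (M k) (dp δ n (x i)) := by
          rw [dsn_congr (hF2 k k (dp δ n (x i))), map_smul_eq_mul]
        have h7 : |dsn (M k) (dp δ n (x i * c k)) - dsn (M k) (dp δ n (x i) * c k)|
            ≤ K * ‖x i‖ := (abs_sub_map_le_sub _ _ _).trans (hK _)
        have h8 : |dsn (M k) (dp δ n (x i)) - dsn (M k) s|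
            ≤ dsn (jac A) (dp δ n (x i) - s) :=
          (abs_sub_map_le_sub _ _ _).trans (dsn_mono (hJM k) _)
        have h9 : dsn (M k) (dp δ n (x i * c k)) - ρ
            = (dsn (M k) (dp δ n (x i * c k)) - dsn (M k) (dp δ n (x i) * c k))
              + ‖γ k k‖ * (dsn (M k) (dp δ n (x i)) - dsn (M k) s) := by
          rw [h6, hρ]; ring
        rw [h9]
        refine (abs_add_le _ _).trans (add_le_add h7 ?_)
        rw [abs_mul, abs_norm]
        gcongr
      rw [tendsto_iff_norm_sub_tendsto_zero]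
      refine squeeze_zero (fun _ => norm_nonneg _) (fun i => h5 i) ?_
      have := (hx1.norm.const_mul K).add (hx2.const_mul ‖γ k k‖)
      simpa using this
    -- scale
    set t : ℝ := (|K0| + 1) * (2 / ρ) with ht
    have htpos : 0 < t := by positivity
    have h5 : Tendsto (fun i => t * N k (x i * c k)) atTop (𝓝 (t * ρ)) := hlim.const_mul t
    have h6 : t * ρ > |K0| + 1 := by
      rw [ht]
      have : (|K0| + 1) * (2 / ρ) * ρ = 2 * (|K0| + 1) := by field_simp
      rw [this]
      have := abs_nonneg K0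
      linarith
    have h7 : Tendsto (fun i => (t : ℂ) • x i) atTop (𝓝 0) := by
      simpa using hx1.const_smul (t : ℂ)
    obtain ⟨i, hi1, hi2⟩ := ((h7.eventually hU).and (h5.eventually (lt_mem_nhds h6))).exists
    refine ⟨(t : ℂ) • x i, hi1, ?_⟩
    have h8 : N k ((LinearMap.mulRight ℂ (c k)) ((t : ℂ) • x i)) = t * N k (x i * c k) := by
      rw [LinearMap.mulRight_apply, smul_mul_assoc, map_smul_eq_mul, Complex.norm_real,
        Real.norm_of_nonneg htpos.le]
    rw [h8]
    have := le_abs_self K0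
    linarith

end FinSpec

end Pool.Agent.Lib.MP_b3782f_an.H79
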