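import Pool.Agent.Lib.MP_b3782f_an.H79.Deriv

set_option autoImplicit false

open Filter Topology Finset

namespace Pool.Agent.Lib.MP_b3782f_an.H79

section Lift

variable {A : Type*} [NormedRing A] [NormedAlgebra ℂ A]

/-- The space of solutions `(u, t)` of the relations `c u = e t`, `(c, e) ∈ R`. -/
def relSub (R : Set (A × A)) : Submodule ℂ (A × A) where
  carrier := {z | ∀ r ∈ R, r.1 * z.1 = r.2 * z.2}
  zero_mem' := by
    intro r _
    simp
  add_mem' := by
    intro a b ha hb r hr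
    simp only [Prod.fst_add, Prod.snd_add, mul_add]
    rw [ha r hr, hb r hr]
  smul_mem' := by
    intro c a ha r hr
    simp only [Prod.smul_fst, Prod.smul_snd, mul_smul_comm]
    rw [ha r hr]

theorem mem_relSub {R : Set (A × A)} {z : A × A} :
    z ∈ relSub R ↔ ∀ r ∈ R, r.1 * z.1 = r.2 * z.2 := Iff.rfl

theorem isClosed_relSub (R : Set (A × A)) : IsClosed (relSub R : Set (A × A)) := by
  have : (relSub R : Set (A × A)) = ⋂ r ∈ R, {z : A × A | r.1 * z.1 = r.2 * z.2} := by
    ext z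
    simp [mem_relSub]
  rw [this]
  exact isClosed_biInter fun r _ => isClosed_eq (by fun_prop) (by fun_prop)

/-- Index. -/
def ix (m k : ℕ) : Fin (m + 1) := Fin.ofNat (m + 1) k

theorem ix_zero (m : ℕ) : ix m 0 = 0 := rfl

theorem val_ix_of_le {m k : ℕ} (h : k ≤ m) : ((ix m k : Fin (m + 1)) : ℕ) = k :=
  Nat.mod_eq_of_lt (by omega)

/-- The relation at order `l` for the truncated lifts. -/
noncomputable def relFun (δ : A →ₗ[ℂ] A) (m : ℕ) (r : A × A) (l : ℕ)
    (x : Fin (m + 1) → A × A) : A :=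
  ∑ p ∈ antidiagonal l, (dp δ p.1 r.1 * (x (ix m p.2)).1
    - dp δ p.1 r.2 * (x (ix m p.2)).2)

/-- The truncated lifts of solutions of the relations. -/
noncomputable def relTrunc (δ : A →ₗ[ℂ] A) (m : ℕ) (R : Set (A × A)) :
    Submodule ℂ (Fin (m + 1) → A × A) where
  carrier := {x | ∀ r ∈ R, ∀ l ≤ m, relFun δ m r l x = 0}
  zero_mem' := by
    intro r _ l _
    simp [relFun]
  add_mem' := by
    intro a b ha hb r hr l hl
    have h1 := ha r hr l hl
    have h2 := hb r hr l hl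
    rw [relFun] at h1 h2 ⊢
    rw [← add_zero (0 : A)]
    nth_rewrite 1 [← h1]
    rw [← h2, ← Finset.sum_add_distrib]
    refine Finset.sum_congr rfl fun p _ => ?_
    simp only [Pi.add_apply, Prod.fst_add, Prod.snd_add, mul_add]
    abel
  smul_mem' := by
    intro c a ha r hr l hl
    have h1 := ha r hr l hl
    rw [relFun] at h1 ⊢
    rw [← smul_zero c, ← h1, Finset.smul_sum]
    refine Finset.sum_congr rfl fun p _ => ?_
    simp only [Pi.smul_apply, Prod.smul_fst, Prod.smul_snd, mul_smul_comm, smul_sub]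

theorem mem_relTrunc {δ : A →ₗ[ℂ] A} {m : ℕ} {R : Set (A × A)} {x : Fin (m + 1) → A × A} :
    x ∈ relTrunc δ m R ↔ ∀ r ∈ R, ∀ l ≤ m, relFun δ m r l x = 0 := Iff.rfl

theorem isClosed_relTrunc (δ : A →ₗ[ℂ] A) (m : ℕ) (R : Set (A × A)) :
    IsClosed (relTrunc δ m R : Set (Fin (m + 1) → A × A)) := by
  have : (relTrunc δ m R : Set (Fin (m + 1) → A × A))
      = ⋂ r ∈ R, ⋂ l ∈ Set.Iic m, {x | relFun δ m r l x = 0} := by
    ext x
    simp [mem_relTrunc]
  rw [this]
  refine isClosed_biInter fun r _ => isClosed_biInter fun l _ => isClosed_eq ?_ continuous_const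
  unfold relFun
  fun_prop


variable {δ : A →ₗ[ℂ] A} (hδ : ∀ a b : A, δ (a * b) = a * δ b + δ a * b)

include hδ

theorem jet_mem (m : ℕ) {R : Set (A × A)} {z : A × A} (hz : z ∈ relSub R) :
    (fun i : Fin (m + 1) => (dp δ i z.1, dp δ i z.2)) ∈ relTrunc δ m R := by
  intro r hr l hl
  have h1 : dp δ l (r.1 * z.1) = dp δ l (r.2 * z.2) := by rw [hz r hr]
  rw [dp_mul hδ, dp_mul hδ] at h1
  rw [relFun, Finset.sum_sub_distrib, sub_eq_zero]
  have h2 : ∀ p ∈ antidiagonal l, ((ix m p.2) : ℕ) = p.2 := by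
    intro p hp
    have := HasAntidiagonal.mem_antidiagonal.1 hp
    exact val_ix_of_le (by omega)
  calc ∑ p ∈ antidiagonal l, dp δ p.1 r.1 * dp δ ((ix m p.2) : ℕ) z.1
      = ∑ p ∈ antidiagonal l, dp δ p.1 r.1 * dp δ p.2 z.1 :=
        Finset.sum_congr rfl fun p hp => by rw [h2 p hp]
    _ = ∑ p ∈ antidiagonal l, dp δ p.1 r.2 * dp δ p.2 z.2 := h1
    _ = ∑ p ∈ antidiagonal l, dp δ p.1 r.2 * dp δ ((ix m p.2) : ℕ) z.2 :=
        Finset.sum_congr rfl fun p hp => by rw [h2 p hp]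

theorem psi_mem (m : ℕ) {R : Set (A × A)} {x : Fin (m + 1) → A × A} (hx : x ∈ relTrunc δ m R) :
    (∑ p ∈ antidiagonal m, ((-1 : ℂ) ^ p.1) • dp δ p.1 (x (ix m p.2)).1,
     ∑ p ∈ antidiagonal m, ((-1 : ℂ) ^ p.1) • dp δ p.1 (x (ix m p.2)).2) ∈ relSub R := by
  intro r hr
  simp only
  rw [mul_psi hδ m r.1 (fun k => (x (ix m k)).1),
    mul_psi hδ m r.2 (fun k => (x (ix m k)).2)]
  refine Finset.sum_congr rfl fun q hq => ?_
  have hq' := HasAntidiagonal.mem_antidiagonal.1 hq
  have h1 := hx r hr q.2 (by omega)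
  rw [relFun, Finset.sum_sub_distrib, sub_eq_zero] at h1
  rw [h1]

/-- **Key lemma.** If `φ ∘ δ ^ j` is continuous for `j < m` and solutions `(u_k, t_k) → 0` of the
relations have `φ (δ ^ m (u_k)) = 1`, then there is a solution `(v, s)` with `φ v ≠ 0`. -/
theorem key_lemma [CompleteSpace A] (m : ℕ) (R : Set (A × A)) (φ : A →L[ℂ] ℂ)
    (hc : ∀ j < m, Continuous fun a => φ ((δ ^ j) a)) (z : ℕ → A × A)
    (hz : ∀ k, z k ∈ relSub R) (hz0 : Tendsto z atTop (𝓝 0))
    (hd : ∀ k, φ ((δ ^ m) (z k).1) = 1) :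
    ∃ w ∈ relSub R, φ w.1 ≠ 0 := by
  have : CompleteSpace (relSub R) := (isClosed_relSub R).completeSpace_coe
  have : CompleteSpace (relTrunc δ m R) := (isClosed_relTrunc δ m R).completeSpace_coe
  have hmem : ∀ x : relTrunc δ m R, (x : Fin (m + 1) → A × A) 0 ∈ relSub R := by
    intro x r hr
    have h1 := x.2 r hr 0 (Nat.zero_le _)
    rw [relFun] at h1
    simp only [Nat.antidiagonal_zero, sum_singleton, dp_zero, ix_zero, sub_eq_zero] at h1
    exact h1
  let p : relTrunc δ m R →L[ℂ] relSub R :=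
    ((ContinuousLinearMap.proj (R := ℂ) (φ := fun _ : Fin (m + 1) => A × A) 0).comp
      (relTrunc δ m R).subtypeL).codRestrict (relSub R) hmem
  have hsurj : Function.Surjective p := by
    intro w
    refine ⟨⟨_, jet_mem hδ m w.2⟩, ?_⟩
    apply Subtype.ext
    change (dp δ 0 (w : A × A).1, dp δ 0 (w : A × A).2) = (w : A × A)
    simp
  obtain ⟨C, hC, hC2⟩ := p.exists_preimage_norm_le hsurj
  choose X hX1 hX2 using fun k => hC2 ⟨z k, hz k⟩
  have hX0 : Tendsto (fun k => (X k : Fin (m + 1) → A × A)) atTop (𝓝 0) := by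
    apply squeeze_zero_norm (a := fun k => C * ‖z k‖)
    · intro k
      exact hX2 k
    · have := hz0.norm
      rw [norm_zero] at this
      simpa using this.const_mul C
  have hXi : ∀ i, Tendsto (fun k => ((X k : Fin (m + 1) → A × A) i).1) atTop (𝓝 0) := by
    intro i
    have h1 := (continuous_apply i).tendsto (0 : Fin (m + 1) → A × A)
    have h2 := (h1.comp hX0)
    have h3 := (continuous_fst.tendsto (0 : A × A))
    exact h3.comp h2
  have hXz : ∀ k, (X k : Fin (m + 1) → A × A) 0 = z k := fun k =>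
    congrArg Subtype.val (hX1 k)
  -- the corrected coefficient
  set v : ℕ → A := fun k => ∑ p ∈ antidiagonal m,
    ((-1 : ℂ) ^ p.1) • dp δ p.1 ((X k : Fin (m + 1) → A × A) (ix m p.2)).1 with hv
  have hlim : Tendsto (fun k => φ (v k)) atTop (𝓝 (((-1 : ℂ) ^ m) * ((m.factorial : ℂ)⁻¹))) := by
    have h1 : ∀ k, φ (v k) = ∑ p ∈ antidiagonal m, ((-1 : ℂ) ^ p.1) *
        φ (dp δ p.1 ((X k : Fin (m + 1) → A × A) (ix m p.2)).1) := by
      intro k
      rw [hv]
      simp only [map_sum, map_smul, smul_eq_mul]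
    simp only [h1]
    have h2 : ((-1 : ℂ) ^ m) * ((m.factorial : ℂ)⁻¹)
        = ∑ p ∈ antidiagonal m, (if p.1 = m then ((-1 : ℂ) ^ m) * ((m.factorial : ℂ)⁻¹) else 0) := by
      rw [Finset.sum_eq_single (m, 0)]
      · simp
      · rintro ⟨a, b⟩ hb hne
        rw [HasAntidiagonal.mem_antidiagonal] at hb
        simp only at hb ⊢
        rw [if_neg]
        intro ham
        apply hne
        ext <;> simp <;> omega
      · intro h
        exact absurd (HasAntidiagonal.mem_antidiagonal.2 (by simp)) h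
    rw [h2]
    refine tendsto_finsetSum _ fun p hp => ?_
    rw [HasAntidiagonal.mem_antidiagonal] at hp
    by_cases hpm : p.1 = m
    · rw [if_pos hpm]
      have hp2 : p.2 = 0 := by omega
      have h3 : ∀ k, ((-1 : ℂ) ^ p.1) *
          φ (dp δ p.1 ((X k : Fin (m + 1) → A × A) (ix m p.2)).1)
          = ((-1 : ℂ) ^ m) * ((m.factorial : ℂ)⁻¹) := by
        intro k
        rw [hpm, hp2, ix_zero, hXz, dp_apply, map_smul, hd, smul_eq_mul, mul_one]
      simp only [h3]
      exact tendsto_const_nhds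
    · rw [if_neg hpm]
      have hlt : p.1 < m := by omega
      have h3 : Continuous fun a => φ (dp δ p.1 a) := by
        simp only [dp_apply, map_smul, smul_eq_mul]
        exact continuous_const.mul (hc p.1 hlt)
      have h4 := ((h3.tendsto 0).comp (hXi (ix m p.2))).const_mul ((-1 : ℂ) ^ p.1)
      simpa using h4
  have hne : ((-1 : ℂ) ^ m) * ((m.factorial : ℂ)⁻¹) ≠ 0 := by
    apply mul_ne_zero
    · exact pow_ne_zero _ (by norm_num)
    · exact inv_ne_zero (Nat.cast_ne_zero.2 (Nat.factorial_ne_zero m))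
  obtain ⟨k, hk⟩ := (hlim.eventually_ne hne).exists
  exact ⟨_, psi_mem hδ m (X k).2, hk⟩

end Lift

end Pool.Agent.Lib.MP_b3782f_an.H79
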