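import Pool.Agent.Lib.MP_b3782f_an.H79.FinSpec

set_option autoImplicit false

open Filter Topology Finset

namespace Pool.Agent.Lib.MP_b3782f_an.H79

section Minimal

variable {A : Type} [NormedRing A] [NormedAlgebra ℂ A] [CompleteSpace A]

/-- A sequence of nonzero orthogonal idempotents gives an element with infinite spectrum. -/
theorem infinite_spectrum_of_orth (f : ℕ → A) (hf0 : ∀ k, f k ≠ 0) (hff : ∀ k, f k * f k = f k)
    (hfl : ∀ k l, k ≠ l → f k * f l = 0) (e : A) (he : ∀ k, e * f k = f k) :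
    ∃ a : A, e * a = a ∧ ¬ (spectrum ℂ a).Finite := by
  let D : ℕ → ℝ := fun k => 2 ^ k * (1 + ∑ j ∈ Finset.range (k + 1), ‖f j‖)
  have hD : ∀ k, 0 < D k := fun k => by positivity
  have hDS : ∀ k, D k < D (k + 1) := by
    intro k
    simp only [D]
    rw [Finset.sum_range_succ _ (k + 1), pow_succ]
    have h1 : 0 ≤ ∑ j ∈ Finset.range (k + 1), ‖f j‖ := by positivity
    have h2 := norm_nonneg (f (k + 1))
    have h3 : (0 : ℝ) < 2 ^ k := by positivity
    nlinarith [mul_nonneg h3.le h1, mul_nonneg h3.le h2]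
  have hDm : StrictMono D := strictMono_nat_of_lt_succ hDS
  let μ : ℕ → ℂ := fun k => ((D k)⁻¹ : ℝ)
  have hμinj : Function.Injective μ := by
    intro k l h
    have h1 : (D k)⁻¹ = (D l)⁻¹ := Complex.ofReal_injective h
    exact hDm.injective (inv_injective h1)
  have hnorm : ∀ k, ‖μ k • f k‖ ≤ (1 / 2) ^ k := by
    intro k
    rw [norm_smul, Complex.norm_real, norm_inv, Real.norm_of_nonneg (hD k).le,
      inv_mul_le_iff₀ (hD k)]
    have h1 : ‖f k‖ ≤ ∑ j ∈ Finset.range (k + 1), ‖f j‖ :=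
      Finset.single_le_sum (f := fun j => ‖f j‖) (fun y _ => norm_nonneg _)
        (Finset.mem_range.2 (Nat.lt_succ_self k))
    have h2 : D k * (1 / 2) ^ k = 1 + ∑ j ∈ Finset.range (k + 1), ‖f j‖ := by
      simp only [D]
      rw [mul_comm, ← mul_assoc, ← mul_pow]
      norm_num
    rw [h2]
    linarith
  have hsum : Summable fun k => μ k • f k :=
    Summable.of_norm_bounded (summable_geometric_of_lt_one (by norm_num) (by norm_num)) hnorm
  refine ⟨∑' k, μ k • f k, ?_, ?_⟩
  · rw [← hsum.tsum_mul_left]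
    refine tsum_congr fun k => ?_
    rw [mul_smul_comm, he]
  · intro hfin
    have hmem : ∀ k, μ k ∈ spectrum ℂ (∑' k, μ k • f k) := by
      intro k hk
      rw [spectrum.mem_resolventSet_iff] at hk
      have h1 : f k * (algebraMap ℂ A (μ k) - ∑' k, μ k • f k) = 0 := by
        rw [mul_sub, ← hsum.tsum_mul_left, tsum_eq_single k]
        · rw [mul_smul_comm, hff, ← Algebra.commutes, ← Algebra.smul_def, sub_self]
        · intro l hl
          rw [mul_smul_comm, hfl k l hl.symm, smul_zero]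
      obtain ⟨u, hu⟩ := hk
      rw [← hu] at h1
      apply hf0 k
      calc f k = f k * (u : A) * ((u⁻¹ : Aˣ) : A) := by rw [mul_assoc, Units.mul_inv, mul_one]
        _ = 0 := by rw [h1, zero_mul]
    exact Set.infinite_range_of_injective hμinj (hfin.subset (by rintro _ ⟨k, rfl⟩; exact hmem k))

theorem exists_minimal (S : Set A) (hR : ∀ y ∈ S, ∀ b, y * b ∈ S)
    (hfin : ∀ y ∈ S, (spectrum ℂ y).Finite) (e0 : A) (h0 : e0 * e0 = e0) (hne : e0 ≠ 0)
    (hS : e0 ∈ S) :
    ∃ e ∈ S, e * e = e ∧ e ≠ 0 ∧ ∀ f, f * f = f → e * f = f → f * e = f → f = 0 ∨ f = e := by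
  classical
  by_contra hcon
  push Not at hcon
  let X : Type := {e : A // e ∈ S ∧ e * e = e ∧ e ≠ 0}
  have hstep : ∀ e : X, ∃ f : X, e.1 * f.1 = f.1 ∧ f.1 * e.1 = f.1 ∧ f.1 ≠ e.1 := by
    rintro ⟨e, heS, hee, he0⟩
    obtain ⟨f, hff, hef, hfe, hf0, hfne⟩ := hcon e heS hee he0
    exact ⟨⟨f, by rw [← hef]; exact hR e heS f, hff, hf0⟩, hef, hfe, hfne⟩
  choose F hF1 hF2 hF3 using hstep
  let E : ℕ → X := fun k => Nat.rec ⟨e0, hS, h0, hne⟩ (fun _ e => F e) k
  have hES : ∀ k, E (k + 1) = F (E k) := fun _ => rfl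
  have hEl : ∀ k l, k ≤ l → (E k).1 * (E l).1 = (E l).1 := by
    intro k l hkl
    induction l, hkl using Nat.le_induction with
    | base => exact (E k).2.2.1
    | succ l hkl ih =>
      rw [hES]
      calc (E k).1 * (F (E l)).1 = (E k).1 * ((E l).1 * (F (E l)).1) := by rw [hF1]
        _ = (E l).1 * (F (E l)).1 := by rw [← mul_assoc, ih]
        _ = (F (E l)).1 := hF1 _
  have hEr : ∀ k l, k ≤ l → (E l).1 * (E k).1 = (E l).1 := by
    intro k l hkl
    induction l, hkl using Nat.le_induction with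
    | base => exact (E k).2.2.1
    | succ l hkl ih =>
      rw [hES]
      calc (F (E l)).1 * (E k).1 = ((F (E l)).1 * (E l).1) * (E k).1 := by rw [hF2]
        _ = (F (E l)).1 * (E l).1 := by rw [mul_assoc, ih]
        _ = (F (E l)).1 := hF2 _
  let f : ℕ → A := fun k => (E k).1 - (E (k + 1)).1
  have hf0 : ∀ k, f k ≠ 0 := by
    intro k h
    have h1 : (E k).1 = (E (k + 1)).1 := sub_eq_zero.1 h
    exact hF3 (E k) (by rw [← hES, ← h1])
  have hff : ∀ k, f k * f k = f k := by
    intro k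
    simp only [f]
    rw [sub_mul, mul_sub, mul_sub, hEl k k le_rfl, hEl k (k + 1) (Nat.le_succ k),
      hEr k (k + 1) (Nat.le_succ k), hEl (k + 1) (k + 1) le_rfl]
    abel
  have hfl' : ∀ k l, k < l → f k * f l = 0 := by
    intro k l hkl
    simp only [f]
    rw [sub_mul, mul_sub, mul_sub, hEl k l hkl.le, hEl k (l + 1) (by omega),
      hEl (k + 1) l (by omega), hEl (k + 1) (l + 1) (by omega), sub_self]
  have hfr' : ∀ k l, k < l → f l * f k = 0 := by
    intro k l hkl
    simp only [f]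
    rw [sub_mul, mul_sub, mul_sub, hEr k l hkl.le, hEr k (l + 1) (by omega),
      hEr (k + 1) l (by omega), hEr (k + 1) (l + 1) (by omega)]
    abel
  have hfl : ∀ k l, k ≠ l → f k * f l = 0 := by
    intro k l hkl
    rcases lt_or_gt_of_ne hkl with h | h
    · exact hfl' k l h
    · exact hfr' l k h
  have he : ∀ k, e0 * f k = f k := by
    intro k
    have h1 : e0 = (E 0).1 := rfl
    simp only [f]
    rw [h1, mul_sub, hEl 0 k (Nat.zero_le _), hEl 0 (k + 1) (Nat.zero_le _)]
  obtain ⟨a, ha, hinf⟩ := infinite_spectrum_of_orth f hf0 hff hfl e0 he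
  apply hinf
  rw [← ha]
  exact hfin _ (hR e0 hS a)

variable {δ : A →ₗ[ℂ] A} (hδ : ∀ a b : A, δ (a * b) = a * δ b + δ a * b)

include hδ

/-- If `SS` is not contained in the radical, it contains a minimal idempotent. -/
theorem exists_minimal_idem {n : ℕ} (hc : LowCont δ n) {y : A} (hy : y ∈ SS δ n)
    (hyJ : y ∉ jac A) :
    ∃ e ∈ SS δ n, e * e = e ∧ e ≠ 0 ∧ ∀ f, f * f = f → e * f = f → f * e = f →
      f = 0 ∨ f = e := by
  obtain ⟨a, ha⟩ : ∃ a, ¬ IsUnit (1 + a * y) := by
    by_contra hcon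
    push Not at hcon
    exact hyJ (mem_jac_of hcon)
  set s : A := (-a) * y with hs
  have hsS : s ∈ SS δ n := SS.mul_left hδ hc hy (-a)
  have hfin := fun z (hz : z ∈ SS δ n) => finite_spectrum hδ hc hz
  have hnt : Nontrivial A := by
    by_contra h
    rw [not_nontrivial_iff_subsingleton] at h
    exact ha (by
      have : (1 + a * y) = 1 := Subsingleton.elim _ _
      rw [this]
      exact isUnit_one)
  obtain ⟨e, he⟩ := exists_spec s (hfin s hsS) 1
  have hw : IsUnit ((s - algebraMap ℂ A 1) * e + 1) := by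
    rw [add_comm]
    exact he.qn.isUnit_one_add
  obtain ⟨w, hw⟩ := hw
  have hwe : (w : A) * e = s * e := by
    rw [hw, map_one, add_mul, one_mul, mul_assoc, he.idem]
    noncomm_ring
  have heq : e = ((w⁻¹ : Aˣ) : A) * (s * e) := by
    rw [← hwe, ← mul_assoc, Units.inv_mul, one_mul]
  have heS : e ∈ SS δ n := by
    rw [heq]
    exact SS.mul_left hδ hc (SS.mul_right hδ hc hsS e) _
  have he0 : e ≠ 0 := by
    intro h
    have h1 := he.unit
    rw [h, add_zero, map_one] at h1
    apply ha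
    have h2 : 1 + a * y = -(s - 1) := by rw [hs]; noncomm_ring
    rw [h2]
    exact h1.neg
  exact exists_minimal (SS δ n) (fun y hy b => SS.mul_right hδ hc hy b) hfin e he.idem he0 heS

end Minimal

end Pool.Agent.Lib.MP_b3782f_an.H79
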