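import Pool.Agent.Lib.MP_b3782f_an.H79.Local
import Pool.Agent.Lib.MP_b3782f_an.H79.Minimal
import Pool.Agent.Lib.MP_b3782f_an.H79.Char
import Pool.Agent.Lib.MP_b3782f_an.H79.Corner

set_option autoImplicit false

open Filter Topology Finset

namespace Pool.Agent.Lib.MP_b3782f_an.H79

section Aux

theorem jacobson_swap {R : Type*} [Ring R] {x y : R} (h : IsUnit (1 + x * y)) :
    IsUnit (1 + y * x) := by
  obtain ⟨b, hb1, hb2⟩ := isUnit_iff_exists.1 h
  have h1 : x * y * b = 1 - b := by
    have : b + x * y * b = 1 := by rw [← hb1]; noncomm_ring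
    rw [← this]; abel
  have h2 : b * (x * y) = 1 - b := by
    have : b + b * (x * y) = 1 := by rw [← hb2]; noncomm_ring
    rw [← this]; abel
  refine isUnit_iff_exists.2 ⟨1 - y * b * x, ?_, ?_⟩
  · calc (1 + y * x) * (1 - y * b * x) = 1 + y * x - y * b * x - y * (x * y * b) * x := by
          noncomm_ring
      _ = 1 := by rw [h1]; noncomm_ring
  · calc (1 - y * b * x) * (1 + y * x) = 1 + y * x - y * b * x - y * (b * (x * y)) * x := by
          noncomm_ring
      _ = 1 := by rw [h2]; noncomm_ring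

end Aux

section CornerAux

variable {A : Type} [NormedRing A] [NormedAlgebra ℂ A] {e : A} {he : e * e = e}

/-- A unit of the corner has an inverse in `A` relative to `e`. -/
theorem Cor.exists_inv {c : Cor e he} (hc : IsUnit c) :
    ∃ v : Cor e he, c.val * v.val = e ∧ v.val * c.val = e := by
  obtain ⟨v, hv1, hv2⟩ := isUnit_iff_exists.1 hc
  refine ⟨v, ?_, ?_⟩
  · rw [← Cor.val_mul, hv1, Cor.val_one]
  · rw [← Cor.val_mul, hv2, Cor.val_one]

theorem idem_jac {e : A} (he : e * e = e) (h : e ∈ jac A) : e = 0 := by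
  obtain ⟨u, hu⟩ := isUnit_one_add_jac ((jac A).neg_mem h)
  have h1 : (u : A) * e = 0 := by rw [hu, add_mul, one_mul, neg_mul, he, add_neg_cancel]
  calc e = ((u⁻¹ : Aˣ) : A) * (u * e) := by rw [← mul_assoc, Units.inv_mul, one_mul]
    _ = 0 := by rw [h1, mul_zero]

/-- `φ` vanishes on the compressions of radical elements. -/
theorem phi_comp_jac (φ : Cor e he →ₐ[ℂ] ℂ) (hφ : ∀ a, φ a ≠ 0 → IsUnit a) (he0 : e ≠ 0)
    {r : A} (hr : r ∈ jac A) : φ (Cor.comp he r) = 0 := by
  by_contra hne
  obtain ⟨v, hv, -⟩ := Cor.exists_inv (hφ _ hne)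
  apply he0
  apply idem_jac he
  rw [← hv, Cor.val_comp]
  exact jac_mul_right (jac_mul_right ((jac A).mul_mem_left _ hr) _) _

/-- The kernel of `φ` lies in the radical of `A`. -/
theorem ker_phi_jac (φ : Cor e he →ₐ[ℂ] ℂ) (hφ : ∀ a, φ a ≠ 0 → IsUnit a)
    {x : Cor e he} (hx : φ x = 0) : x.val ∈ jac A := by
  apply mem_jac_of
  intro a
  apply jacobson_swap
  -- `1 + x a` is a unit
  set w : A := x.val * a with hw
  have hew : e * w = w := by rw [hw, ← mul_assoc, x.left]
  have hc : φ (1 + x * Cor.comp he a) ≠ 0 := by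
    rw [map_add, map_one, map_mul, hx, zero_mul, add_zero]
    exact one_ne_zero
  obtain ⟨v, hv1, hv2⟩ := Cor.exists_inv (hφ _ hc)
  have hcv : (1 + x * Cor.comp he a).val = e + w * e := by
    rw [Cor.val_add, Cor.val_one, Cor.val_mul, Cor.val_comp, hw, ← mul_assoc, ← mul_assoc, x.right]
  rw [hcv] at hv1 hv2
  have hve := v.right
  have hev := v.left
  set u : A := v.val with hu
  have h1 : u + w * u = e := by
    have : (e + w * e) * u = e * u + w * (e * u) := by noncomm_ring
    rw [this, hev] at hv1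
    exact hv1
  have h2 : u * w + u * w * w = w := by
    have h3 : (u * (e + w * e)) * w = e * w := by rw [hv2]
    have h4 : (u * (e + w * e)) * w = (u * e) * w + u * w * (e * w) := by noncomm_ring
    rw [h4, hve, hew] at h3
    exact h3
  refine isUnit_iff_exists.2 ⟨1 - u * w, ?_, ?_⟩
  · calc (1 + w) * (1 - u * w) = 1 + w - (u + w * u) * w := by noncomm_ring
      _ = 1 := by rw [h1, hew]; abel
  · calc (1 - u * w) * (1 + w) = 1 + w - (u * w + u * w * w) := by noncomm_ring
      _ = 1 := by rw [h2]; abel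

theorem norm_comp_le (he : e * e = e) (a : A) : ‖Cor.comp he a‖ ≤ ‖e‖ * ‖a‖ * ‖e‖ := by
  rw [← Cor.norm_val, Cor.val_comp]
  exact (norm_mul_le _ _).trans (by gcongr; exact norm_mul_le _ _)

theorem comp_add (a b : A) : Cor.comp he (a + b) = Cor.comp he a + Cor.comp he b :=
  Cor.ext (by rw [Cor.val_add, Cor.val_comp, Cor.val_comp, Cor.val_comp]; noncomm_ring)

theorem comp_sub (a b : A) : Cor.comp he (a - b) = Cor.comp he a - Cor.comp he b :=
  Cor.ext (by rw [Cor.val_sub, Cor.val_comp, Cor.val_comp, Cor.val_comp]; noncomm_ring)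

theorem comp_smul (c : ℂ) (a : A) : Cor.comp he (c • a) = c • Cor.comp he a :=
  Cor.ext (by rw [Cor.val_smul, Cor.val_comp, Cor.val_comp, mul_smul_comm, smul_mul_assoc])

theorem comp_zero : Cor.comp he (0 : A) = 0 :=
  Cor.ext (by rw [Cor.val_comp, Cor.val_zero, mul_zero, zero_mul])

theorem comp_sum {ι : Type*} (s : Finset ι) (f : ι → A) :
    Cor.comp he (∑ i ∈ s, f i) = ∑ i ∈ s, Cor.comp he (f i) := by
  classical
  induction s using Finset.induction_on with
  | empty => simp [comp_zero]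
  | insert i s his ih => rw [Finset.sum_insert his, Finset.sum_insert his, comp_add, ih]

theorem comp_val (x : Cor e he) : Cor.comp he x.val = x :=
  Cor.ext (by rw [Cor.val_comp, x.left, x.right])

theorem comp_mul_val (a b : A) (x : Cor e he) :
    Cor.comp he (a * x.val * b) = Cor.comp he a * x * Cor.comp he b := by
  apply Cor.ext
  rw [Cor.val_mul, Cor.val_mul, Cor.val_comp, Cor.val_comp, Cor.val_comp]
  have h1 : e * a * e * x.val * (e * b * e) = e * a * (e * x.val * e) * b * e := by noncomm_ring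
  have h2 : e * x.val * e = x.val := by rw [x.left, x.right]
  rw [h1, h2]
  noncomm_ring

/-- The spectrum in the corner is contained in the spectrum in `A`, up to `0`. -/
theorem spectrum_cor (a : Cor e he) : spectrum ℂ a ⊆ spectrum ℂ a.val ∪ {0} := by
  intro l hl
  by_contra hcon
  simp only [Set.mem_union, Set.mem_singleton_iff, not_or] at hcon
  obtain ⟨hl1, hl0⟩ := hcon
  rw [spectrum.notMem_iff] at hl1
  apply hl
  rw [spectrum.mem_resolventSet_iff]
  obtain ⟨b, hb1, hb2⟩ := isUnit_iff_exists.1 hl1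
  have hcomm : e * (algebraMap ℂ A l - a.val) = (algebraMap ℂ A l - a.val) * e := by
    rw [mul_sub, sub_mul, a.left, a.right, Algebra.commutes]
  have hval : (algebraMap ℂ (Cor e he) l - a).val = (algebraMap ℂ A l - a.val) * e := by
    rw [Cor.val_sub, Cor.val_algebraMap, sub_mul, a.right, Algebra.smul_def]
  refine isUnit_iff_exists.2 ⟨Cor.comp he b, ?_, ?_⟩
  · apply Cor.ext
    rw [Cor.val_mul, Cor.val_one, hval, Cor.val_comp]
    calc (algebraMap ℂ A l - a.val) * e * (e * b * e)
        = (algebraMap ℂ A l - a.val) * (e * e) * b * e := by noncomm_ring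
      _ = e * ((algebraMap ℂ A l - a.val) * b) * e := by rw [he, ← hcomm]; noncomm_ring
      _ = e := by rw [hb1, mul_one, he]
  · apply Cor.ext
    rw [Cor.val_mul, Cor.val_one, hval, Cor.val_comp]
    calc e * b * e * ((algebraMap ℂ A l - a.val) * e)
        = e * b * (e * (algebraMap ℂ A l - a.val)) * e := by noncomm_ring
      _ = e * (b * (algebraMap ℂ A l - a.val)) * (e * e) := by rw [hcomm]; noncomm_ring
      _ = e := by rw [hb2, mul_one, he, he]

end CornerAux

section Main

variable {A : Type} [NormedRing A] [NormedAlgebra ℂ A] [CompleteSpace A]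

/-- The corner at a minimal idempotent is local. -/
theorem corner_local {e : A} (he : e * e = e) (he0 : e ≠ 0)
    (hfin : ∀ a : Cor e he, (spectrum ℂ a.val).Finite)
    (hmin : ∀ f, f * f = f → e * f = f → f * e = f → f = 0 ∨ f = e) (a : Cor e he) :
    IsUnit a ∨ IsUnit (1 - a) := by
  have hnt : Nontrivial (Cor e he) := by
    refine ⟨⟨1, 0, fun h => he0 ?_⟩⟩
    have := congrArg Cor.val h
    rwa [Cor.val_one, Cor.val_zero] at this
  have hfin2 : (spectrum ℂ a).Finite :=
    ((hfin a).union (Set.finite_singleton 0)).subset (spectrum_cor a)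
  obtain ⟨l, hl⟩ := spectrum.nonempty (A := Cor e he) a
  obtain ⟨f, hf⟩ := exists_spec a hfin2 l
  have hf1 : f = 1 := by
    have h1 : f.val * f.val = f.val := by rw [← Cor.val_mul, hf.idem]
    rcases hmin f.val h1 f.left f.right with h2 | h2
    · exfalso
      have hf0 : f = 0 := Cor.ext (by rw [h2, Cor.val_zero])
      have h3 := hf.unit
      rw [hf0, add_zero] at h3
      apply hl
      rw [spectrum.mem_resolventSet_iff, ← neg_sub]
      exact h3.neg
    · exact Cor.ext (by rw [h2, Cor.val_one])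
  have hq := hf.qn
  rw [hf1, mul_one] at hq
  by_cases hl0 : l = 0
  · right
    rw [hl0, map_zero, sub_zero] at hq
    exact hq.isUnit_one_sub
  · left
    have h1 := hq.neg.isUnit_smul_sub l hl0
    have h2 : algebraMap ℂ (Cor e he) l - -(a - algebraMap ℂ (Cor e he) l) = a := by abel
    rwa [h2] at h1

variable {δ : A →ₗ[ℂ] A} (hδ : ∀ a b : A, δ (a * b) = a * δ b + δ a * b)

/-- The compressed derivation. -/
noncomputable def cder (δ : A →ₗ[ℂ] A) {e : A} (he : e * e = e) : Cor e he →ₗ[ℂ] Cor e he where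
  toFun := fun x => Cor.comp he (δ x.val)
  map_add' := fun x y => by rw [Cor.val_add, map_add, comp_add]
  map_smul' := fun c x => by rw [Cor.val_smul, map_smul, comp_smul]; rfl

theorem cder_apply (δ : A →ₗ[ℂ] A) {e : A} (he : e * e = e) (x : Cor e he) :
    cder δ he x = Cor.comp he (δ x.val) := rfl

include hδ

theorem cder_mul {e : A} (he : e * e = e) (x y : Cor e he) :
    cder δ he (x * y) = x * cder δ he y + cder δ he x * y := by
  apply Cor.ext
  simp only [cder_apply, Cor.val_comp, Cor.val_add, Cor.val_mul, hδ]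
  have h1 : e * (x.val * δ y.val + δ x.val * y.val) * e
      = (e * x.val) * δ y.val * e + e * δ x.val * (y.val * e) := by noncomm_ring
  have h2 : x.val * (e * δ y.val * e) = (x.val * e) * δ y.val * e := by noncomm_ring
  have h3 : e * δ x.val * e * y.val = e * δ x.val * (e * y.val) := by noncomm_ring
  rw [h1, h2, h3, x.left, x.right, y.left, y.right]

theorem deriv_val {e : A} (he : e * e = e) (u : Cor e he) :
    δ u.val = (cder δ he u).val + u.val * δ e + δ e * u.val := by
  have h1 : δ u.val = e * δ u.val + δ e * u.val := by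
    conv_lhs => rw [← u.left]
    exact hδ _ _
  have h2 : δ u.val = u.val * δ e + δ u.val * e := by
    conv_lhs => rw [← u.right]
    exact hδ _ _
  have h3 : e * δ u.val = u.val * δ e + e * δ u.val * e := by
    conv_lhs => rw [h2]
    rw [mul_add, ← mul_assoc, u.left, ← mul_assoc]
  rw [cder_apply, Cor.val_comp]
  conv_lhs => rw [h1, h3]
  abel

/-- `φ (e a δ^n(x) b e)` is continuous in `x ∈ e A e`. -/
theorem continuous_phi {e : A} (he : e * e = e) (φ : Cor e he →ₐ[ℂ] ℂ)
    (hcont : ∀ j, Continuous fun x : Cor e he => φ ((cder δ he ^ j) x)) (n : ℕ) :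
    ∀ (a b : A) (j : ℕ), Continuous fun x : Cor e he =>
      φ (Cor.comp he (a * dp δ n ((cder δ he ^ j) x).val * b)) := by
  induction n using Nat.strong_induction_on with
  | _ n ih =>
    intro a b j
    rcases Nat.eq_zero_or_pos n with hn | hn
    · subst hn
      have h1 : ∀ x : Cor e he, φ (Cor.comp he (a * dp δ 0 ((cder δ he ^ j) x).val * b))
          = φ (Cor.comp he a) * φ ((cder δ he ^ j) x) * φ (Cor.comp he b) := by
        intro x
        rw [dp_zero, comp_mul_val, map_mul, map_mul]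
      simp only [h1]
      exact (continuous_const.mul (hcont j)).mul continuous_const
    · obtain ⟨k, rfl⟩ := Nat.exists_eq_succ_of_ne_zero hn.ne'
      have hne : (((k + 1 : ℕ) : ℂ)) ≠ 0 := Nat.cast_ne_zero.2 (Nat.succ_ne_zero k)
      have h1 : ∀ u : Cor e he, dp δ (k + 1) u.val = (((k + 1 : ℕ) : ℂ))⁻¹ •
          (dp δ k (cder δ he u).val + ∑ p ∈ antidiagonal k, dp δ p.1 u.val * dp δ p.2 (δ e)
            + ∑ p ∈ antidiagonal k, dp δ p.1 (δ e) * dp δ p.2 u.val) := by
        intro u
        rw [eq_inv_smul_iff₀ hne, smul_dp_succ, ← dp_map, deriv_val hδ he u, map_add, map_add,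
          dp_mul hδ, dp_mul hδ]
      have h2 : ∀ x : Cor e he, φ (Cor.comp he (a * dp δ (k + 1) ((cder δ he ^ j) x).val * b))
          = (((k + 1 : ℕ) : ℂ))⁻¹ *
            (φ (Cor.comp he (a * dp δ k ((cder δ he ^ (j + 1)) x).val * b))
            + ∑ p ∈ antidiagonal k, φ (Cor.comp he
                (a * dp δ p.1 ((cder δ he ^ j) x).val * (dp δ p.2 (δ e) * b)))
            + ∑ p ∈ antidiagonal k, φ (Cor.comp he
                ((a * dp δ p.1 (δ e)) * dp δ p.2 ((cder δ he ^ j) x).val * b))) := by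
        intro x
        rw [h1, mul_smul_comm, smul_mul_assoc, comp_smul, map_smul, smul_eq_mul]
        congr 1
        have h3 : ((cder δ he ^ (j + 1)) x) = cder δ he ((cder δ he ^ j) x) := by
          rw [pow_succ', Module.End.mul_apply]
        rw [mul_add, mul_add, add_mul, add_mul, comp_add, comp_add, map_add, map_add, h3,
          Finset.mul_sum, Finset.mul_sum, Finset.sum_mul, Finset.sum_mul, comp_sum, comp_sum,
          map_sum, map_sum]
        refine congrArg₂ (· + ·) (congrArg₂ (· + ·) rfl (Finset.sum_congr rfl fun p _ => ?_))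
          (Finset.sum_congr rfl fun p _ => ?_)
        · congr 2
          noncomm_ring
        · congr 2
          noncomm_ring
      simp only [h2]
      refine Continuous.mul continuous_const (Continuous.add (Continuous.add
        (ih k (Nat.lt_succ_self k) a b (j + 1)) ?_) ?_)
      · refine continuous_finsetSum _ fun p hp => ?_
        have hp' := HasAntidiagonal.mem_antidiagonal.1 hp
        exact ih p.1 (by omega) a (dp δ p.2 (δ e) * b) j
      · refine continuous_finsetSum _ fun p hp => ?_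
        have hp' := HasAntidiagonal.mem_antidiagonal.1 hp
        exact ih p.2 (by omega) (a * dp δ p.1 (δ e)) b j

/-- **Main theorem.** If the radical of `A` is finitely quasinilpotent, then the separating spaces
of all powers of a derivation are contained in the radical. -/
theorem main_sep (hFQ : FQ ((jac A : Ideal A) : Set A)) (n : ℕ) :
    ∀ y ∈ Sep (δ ^ n), y ∈ jac A := by
  classical
  by_contra hcon0
  have hex : ∃ n, ¬ ∀ y ∈ Sep (δ ^ n), y ∈ jac A := ⟨n, hcon0⟩
  set m := Nat.find hex with hm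
  have hm1 : ¬ ∀ y ∈ Sep (δ ^ m), y ∈ jac A := Nat.find_spec hex
  have hm2 : ∀ j < m, ∀ y ∈ Sep (δ ^ j), y ∈ jac A := fun j hj => by
    have := Nat.find_min hex hj
    rwa [not_not] at this
  push Not at hm1
  obtain ⟨y0, hy0, hy0J⟩ := hm1
  -- continuity modulo the radical below `m`
  have hc : LowCont δ m := by
    intro j hj
    obtain ⟨C, hC, hC2⟩ := exists_bound_of_sep (δ ^ j) (sub (jac A)).mkQL (fun y hy => by
      have h1 := hm2 j hj y hy
      exact (Submodule.Quotient.mk_eq_zero _).2 h1)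
    refine ⟨‖((j.factorial : ℂ)⁻¹)‖ * C, by positivity, fun x => ?_⟩
    rw [dp_apply, map_smul_eq_mul, mul_assoc]
    exact mul_le_mul_of_nonneg_left (hC2 x) (norm_nonneg _)
  have hy0S : y0 ∈ SS δ m := by
    obtain ⟨x, hx1, hx2⟩ := hy0
    refine ⟨fun k => (m.factorial : ℂ) • x k, by simpa using hx1.const_smul (m.factorial : ℂ), ?_⟩
    have h1 : ∀ k, dp δ m ((m.factorial : ℂ) • x k) = (δ ^ m) (x k) := by
      intro k
      rw [dp_apply, map_smul, smul_smul, inv_mul_cancel₀
        (Nat.cast_ne_zero.2 (Nat.factorial_ne_zero m)), one_smul]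
    simp only [h1]
    refine squeeze_zero (fun _ => apply_nonneg _ _) (fun k => dsn_le_norm _ _) ?_
    have h2 := (hx2.sub_const y0).norm
    simpa using h2
  obtain ⟨e, heS, he, he0, hmin⟩ := exists_minimal_idem hδ hc hy0S hy0J
  -- the corner is local
  have hloc := corner_local he he0 (fun a => finite_spectrum hδ hc (by
    rw [← a.left]
    exact SS.mul_right hδ hc heS _)) hmin
  have hnt : Nontrivial (Cor e he) := by
    refine ⟨⟨1, 0, fun h => he0 ?_⟩⟩
    have := congrArg Cor.val h
    rwa [Cor.val_one, Cor.val_zero] at this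
  obtain ⟨φ, hφ⟩ := exists_char hloc
  -- the kernel of `φ` is finitely quasinilpotent
  have hFQφ : FQ {x : Cor e he | φ x = 0} := by
    intro F hF ε hε
    obtain ⟨M, hM, hM2⟩ := hFQ.word_bound (F.image Cor.val) (by
      intro x hx
      obtain ⟨c, hc, rfl⟩ := Finset.mem_image.1 hx
      exact ker_phi_jac φ hφ (hF c hc)) (show 0 < ε / 2 by positivity)
    obtain ⟨N, hN⟩ := pow_unbounded_of_one_lt (‖e‖ * M) (show (1 : ℝ) < 2 by norm_num)
    refine ⟨N + 1, Nat.succ_pos N, fun l hl hlF => ?_⟩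
    rw [← Cor.norm_val, Cor.val_prod]
    have h1 := hM2 (l.map Cor.val) (by
      intro x hx
      obtain ⟨c, hc, rfl⟩ := List.mem_map.1 hx
      exact Finset.mem_image_of_mem _ (hlF c hc))
    rw [List.length_map, hl] at h1
    calc ‖e * (l.map Cor.val).prod‖ ≤ ‖e‖ * ‖(l.map Cor.val).prod‖ := norm_mul_le _ _
      _ ≤ ‖e‖ * (M * (ε / 2) ^ (N + 1)) := by gcongr
      _ = (‖e‖ * M) * (ε ^ (N + 1) / 2 ^ (N + 1)) := by rw [div_pow]; ring
      _ ≤ 2 ^ (N + 1) * (ε ^ (N + 1) / 2 ^ (N + 1)) := by
          gcongr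
          refine hN.le.trans (pow_le_pow_right₀ (by norm_num) (Nat.le_succ N))
      _ = ε ^ (N + 1) := by field_simp
  have hcont := local_main (cder_mul hδ he) φ hφ hFQφ
  -- the contradiction
  obtain ⟨x, hx1, hx2⟩ := heS
  have h1 := seq_mul_left hδ hc hx1 hx2 e
  have hx1' : Tendsto (fun k => e * x k) atTop (𝓝 0) := by simpa using hx1.const_mul e
  have h2 := seq_mul_right hδ hc hx1' h1 e
  rw [he, he] at h2
  have hx0 : Tendsto (fun k => Cor.comp he (x k)) atTop (𝓝 0) := by
    apply squeeze_zero_norm (a := fun k => ‖e‖ * ‖x k‖ * ‖e‖)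
    · intro k
      exact norm_comp_le he _
    · have := (hx1.norm.const_mul ‖e‖).mul_const ‖e‖
      simpa using this
  have h3 := ((continuous_phi hδ he φ hcont m 1 1 0).tendsto 0).comp hx0
  have h4 : ∀ k, (fun x : Cor e he => φ (Cor.comp he (1 * dp δ m ((cder δ he ^ 0) x).val * 1)))
      (Cor.comp he (x k)) = φ (Cor.comp he (dp δ m (e * x k * e))) := by
    intro k
    simp only [pow_zero, Module.End.one_apply, one_mul, mul_one, Cor.val_comp]
  have h5 : Tendsto (fun k => φ (Cor.comp he (dp δ m (e * x k * e)))) atTop (𝓝 0) := by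
    have h6 : φ (Cor.comp he (1 * dp δ m ((cder δ he ^ 0) 0).val * 1)) = 0 := by
      rw [map_zero, Cor.val_zero, map_zero, mul_zero, zero_mul, comp_zero, map_zero]
    have h7 := h3.congr h4
    rw [h6] at h7
    exact h7
  -- `φ (comp w)` is bounded by the distance to the radical
  have hφc : Continuous φ := by
    have := hcont 0
    simpa using this
  obtain ⟨K, hK0, hK⟩ : ∃ K : ℝ, 0 ≤ K ∧ ∀ c : Cor e he, ‖φ c‖ ≤ K * ‖c‖ := by
    let f : Cor e he →L[ℂ] ℂ := ⟨φ.toLinearMap, hφc⟩
    exact ⟨‖f‖, f.opNorm_nonneg, fun c => f.le_opNorm c⟩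
  have hbd : ∀ w : A, ‖φ (Cor.comp he w)‖ ≤ K * ‖e‖ * ‖e‖ * dsn (jac A) w := by
    intro w
    apply le_of_forall_pos_le_add
    intro ε hε
    obtain ⟨r, hr, hr2⟩ := dsn_lt (M := jac A) (x := w)
      (show 0 < ε / (K * ‖e‖ * ‖e‖ + 1) by positivity)
    have h7 : φ (Cor.comp he w) = φ (Cor.comp he (w - r)) := by
      rw [comp_sub, map_sub, phi_comp_jac φ hφ he0 hr, sub_zero]
    rw [h7]
    calc ‖φ (Cor.comp he (w - r))‖ ≤ K * ‖Cor.comp he (w - r)‖ := hK _
      _ ≤ K * (‖e‖ * ‖w - r‖ * ‖e‖) := by gcongr; exact norm_comp_le he _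
      _ = K * ‖e‖ * ‖e‖ * ‖w - r‖ := by ring
      _ ≤ K * ‖e‖ * ‖e‖ * (dsn (jac A) w + ε / (K * ‖e‖ * ‖e‖ + 1)) := by gcongr
      _ = K * ‖e‖ * ‖e‖ * dsn (jac A) w
          + K * ‖e‖ * ‖e‖ * (ε / (K * ‖e‖ * ‖e‖ + 1)) := by ring
      _ ≤ K * ‖e‖ * ‖e‖ * dsn (jac A) w
          + (K * ‖e‖ * ‖e‖ + 1) * (ε / (K * ‖e‖ * ‖e‖ + 1)) := by gcongr; linarith
      _ = K * ‖e‖ * ‖e‖ * dsn (jac A) w + ε := by field_simp
  have h8 : Tendsto (fun k => φ (Cor.comp he (dp δ m (e * x k * e) - e))) atTop (𝓝 0) := by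
    apply squeeze_zero_norm (fun k => hbd _)
    have := h2.const_mul (K * ‖e‖ * ‖e‖)
    simpa using this
  have h9 : ∀ k, φ (Cor.comp he (dp δ m (e * x k * e) - e))
      = φ (Cor.comp he (dp δ m (e * x k * e))) - 1 := by
    intro k
    rw [comp_sub, map_sub]
    have : Cor.comp he e = 1 := Cor.ext (by rw [Cor.val_comp, he, he, Cor.val_one])
    rw [this, map_one]
  simp only [h9] at h8
  have h10 := h5.sub_const 1
  have h11 := tendsto_nhds_unique h8 h10
  norm_num at h11

end Main

end Pool.Agent.Lib.MP_b3782f_an.H79
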