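import Pool.Agent.Lib.MP_b3782f_an.H79.Sep

set_option autoImplicit false

open Filter Topology Finset

namespace Pool.Agent.Lib.MP_b3782f_an.H79

section Quot

variable {A : Type} [NormedRing A] [NormedAlgebra ℂ A]

/-- A left ideal as a complex subspace. -/
noncomputable def sub (M : Ideal A) : Submodule ℂ A := M.restrictScalars ℂ

theorem mem_sub {M : Ideal A} {x : A} : x ∈ sub M ↔ x ∈ M := Iff.rfl

/-- Distance to a left ideal, as a seminorm. -/
noncomputable def dsn (M : Ideal A) : Seminorm ℂ A :=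
  (normSeminorm ℂ (A ⧸ sub M)).comp (sub M).mkQ

theorem dsn_apply (M : Ideal A) (x : A) : dsn M x = ‖(Submodule.Quotient.mk x : A ⧸ sub M)‖ := rfl

theorem dsn_le_norm (M : Ideal A) (x : A) : dsn M x ≤ ‖x‖ :=
  Submodule.Quotient.norm_mk_le (sub M) x

theorem dsn_lt {M : Ideal A} {x : A} {ε : ℝ} (hε : 0 < ε) :
    ∃ r ∈ M, ‖x - r‖ < dsn M x + ε := by
  obtain ⟨m, hm1, hm2⟩ := Submodule.Quotient.norm_mk_lt (S := sub M)
    (Submodule.Quotient.mk x : A ⧸ sub M) hε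
  refine ⟨x - m, ?_, ?_⟩
  · have := (Submodule.Quotient.eq (sub M)).1 hm1.symm
    exact this
  · rw [sub_sub_cancel]
    exact hm2

theorem dsn_le_of_mem {M : Ideal A} {x y : A} (h : x - y ∈ M) : dsn M x ≤ ‖y‖ := by
  have h1 : (Submodule.Quotient.mk x : A ⧸ sub M) = Submodule.Quotient.mk y :=
    (Submodule.Quotient.eq (sub M)).2 h
  rw [dsn_apply, h1]
  exact Submodule.Quotient.norm_mk_le (sub M) y

theorem dsn_congr {M : Ideal A} {x y : A} (h : x - y ∈ M) : dsn M x = dsn M y := by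
  have h1 : (Submodule.Quotient.mk x : A ⧸ sub M) = Submodule.Quotient.mk y :=
    (Submodule.Quotient.eq (sub M)).2 h
  rw [dsn_apply, dsn_apply, h1]

theorem dsn_mul_left (M : Ideal A) (a x : A) : dsn M (a * x) ≤ ‖a‖ * dsn M x := by
  apply le_of_forall_pos_le_add
  intro ε hε
  obtain ⟨r, hr, hr2⟩ := dsn_lt (M := M) (x := x) (show 0 < ε / (‖a‖ + 1) by positivity)
  have h1 : dsn M (a * x) ≤ ‖a * (x - r)‖ := by
    apply dsn_le_of_mem
    have : a * x - a * (x - r) = a * r := by noncomm_ring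
    rw [this]
    exact M.mul_mem_left a hr
  calc dsn M (a * x) ≤ ‖a * (x - r)‖ := h1
    _ ≤ ‖a‖ * ‖x - r‖ := norm_mul_le _ _
    _ ≤ ‖a‖ * (dsn M x + ε / (‖a‖ + 1)) := by gcongr
    _ = ‖a‖ * dsn M x + ‖a‖ * (ε / (‖a‖ + 1)) := by ring
    _ ≤ ‖a‖ * dsn M x + (‖a‖ + 1) * (ε / (‖a‖ + 1)) := by gcongr; linarith
    _ = ‖a‖ * dsn M x + ε := by field_simp

/-- If `J ⊆ M` and `J` is a right ideal then `dist(x b, M) ≤ dist(x, J) ‖b‖`. -/
theorem dsn_mul_right {J M : Ideal A} (hJM : J ≤ M) (hJ : ∀ r ∈ J, ∀ b, r * b ∈ J) (x b : A) :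
    dsn M (x * b) ≤ dsn J x * ‖b‖ := by
  apply le_of_forall_pos_le_add
  intro ε hε
  obtain ⟨r, hr, hr2⟩ := dsn_lt (M := J) (x := x) (show 0 < ε / (‖b‖ + 1) by positivity)
  have h1 : dsn M (x * b) ≤ ‖(x - r) * b‖ := by
    apply dsn_le_of_mem
    have : x * b - (x - r) * b = r * b := by noncomm_ring
    rw [this]
    exact hJM (hJ r hr b)
  calc dsn M (x * b) ≤ ‖(x - r) * b‖ := h1
    _ ≤ ‖x - r‖ * ‖b‖ := norm_mul_le _ _
    _ ≤ (dsn J x + ε / (‖b‖ + 1)) * ‖b‖ := by gcongr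
    _ = dsn J x * ‖b‖ + ‖b‖ * (ε / (‖b‖ + 1)) := by ring
    _ ≤ dsn J x * ‖b‖ + (‖b‖ + 1) * (ε / (‖b‖ + 1)) := by gcongr; linarith
    _ = dsn J x * ‖b‖ + ε := by field_simp

theorem dsn_mono {J M : Ideal A} (hJM : J ≤ M) (x : A) : dsn M x ≤ dsn J x := by
  apply le_of_forall_pos_le_add
  intro ε hε
  obtain ⟨r, hr, hr2⟩ := dsn_lt (M := J) (x := x) hε
  refine (dsn_le_of_mem ?_).trans hr2.le
  rw [sub_sub_cancel]
  exact hJM hr

theorem dsn_eq_zero_of_mem {M : Ideal A} {x : A} (h : x ∈ M) : dsn M x = 0 := by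
  rw [dsn_congr (show x - 0 ∈ M by rwa [sub_zero]), map_zero]

theorem mem_of_dsn_eq_zero {M : Ideal A} (hM : IsClosed (M : Set A)) {x : A} (h : dsn M x = 0) :
    x ∈ M := by
  have h1 : ∀ k : ℕ, ∃ r ∈ M, ‖x - r‖ < 1 / ((k : ℝ) + 1) := by
    intro k
    have := dsn_lt (M := M) (x := x) (show (0 : ℝ) < 1 / ((k : ℝ) + 1) by positivity)
    rwa [h, zero_add] at this
  choose r hr1 hr2 using h1
  refine hM.mem_of_tendsto (b := atTop) (f := r) ?_ (Eventually.of_forall hr1)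
  rw [tendsto_iff_norm_sub_tendsto_zero]
  refine squeeze_zero (fun _ => norm_nonneg _) (fun k => ?_)
    tendsto_one_div_add_atTop_nhds_zero_nat
  rw [norm_sub_rev]
  exact (hr2 k).le

end Quot

section Jac

variable {A : Type} [NormedRing A] [NormedAlgebra ℂ A]

/-- The Jacobson radical. -/
abbrev jac (A : Type) [NormedRing A] : Ideal A := (⊥ : Ideal A).jacobson

omit [NormedAlgebra ℂ A] in
theorem jac_mul_right {x : A} (hx : x ∈ jac A) (b : A) : x * b ∈ jac A :=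
  Ideal.IsTwoSided.mul_mem_of_left b hx

omit [NormedAlgebra ℂ A] in
theorem isUnit_one_add_jac {x : A} (hx : x ∈ jac A) : IsUnit (1 + x) := by
  have key : ∀ y ∈ jac A, ∃ z, z * (1 + y) = 1 := by
    intro y hy
    obtain ⟨z, hz⟩ := Ideal.mem_jacobson_iff.1 hy 1
    rw [Ideal.mem_bot, mul_one, sub_eq_zero] at hz
    exact ⟨z, by rw [mul_add, mul_one, add_comm]; exact hz⟩
  obtain ⟨z, hz⟩ := key x hx
  have h1 : z = 1 + (-(z * x)) := by
    rw [← hz]; noncomm_ring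
  obtain ⟨w, hw⟩ := key (-(z * x)) ((jac A).neg_mem ((jac A).mul_mem_left z hx))
  rw [← h1] at hw
  have h2 : w = 1 + x := by
    calc w = w * (z * (1 + x)) := by rw [hz, mul_one]
      _ = (w * z) * (1 + x) := by rw [mul_assoc]
      _ = 1 + x := by rw [hw, one_mul]
  rw [h2] at hw
  exact isUnit_iff_exists.2 ⟨z, hw, hz⟩

omit [NormedAlgebra ℂ A] in
theorem isUnit_add_jac {u x : A} (hu : IsUnit u) (hx : x ∈ jac A) : IsUnit (u + x) := by
  obtain ⟨v, rfl⟩ := hu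
  have h1 : (v : A) + x = v * (1 + ((v⁻¹ : Aˣ) : A) * x) := by
    rw [mul_add, mul_one, ← mul_assoc, Units.mul_inv, one_mul]
  rw [h1]
  exact v.isUnit.mul (isUnit_one_add_jac ((jac A).mul_mem_left _ hx))

omit [NormedAlgebra ℂ A] in
theorem mem_jac_of {x : A} (h : ∀ a, IsUnit (1 + a * x)) : x ∈ jac A := by
  rw [Ideal.mem_jacobson_iff]
  intro y
  obtain ⟨u, hu⟩ := h y
  refine ⟨((u⁻¹ : Aˣ) : A), ?_⟩
  rw [Ideal.mem_bot]
  have h1 : ((u⁻¹ : Aˣ) : A) * y * x + ((u⁻¹ : Aˣ) : A) = ((u⁻¹ : Aˣ) : A) * (u : A) := by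
    rw [hu]; noncomm_ring
  rw [h1, Units.inv_mul, sub_self]

omit [NormedAlgebra ℂ A] in
theorem jac_le_maximal {M : Ideal A} (hM : M.IsMaximal) : jac A ≤ M :=
  fun _ hx => Ideal.mem_sInf.1 hx ⟨bot_le, hM⟩

omit [NormedAlgebra ℂ A] in
theorem isClosed_jac [CompleteSpace A] : IsClosed ((jac A : Ideal A) : Set A) := by
  have : ((jac A : Ideal A) : Set A) = ⋂ M ∈ {M : Ideal A | M.IsMaximal}, (M : Set A) := by
    ext x
    simp only [SetLike.mem_coe, Ideal.jacobson, Ideal.mem_sInf, Set.mem_ofPred_eq, bot_le,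
      true_and, Set.mem_iInter]
  rw [this]
  refine isClosed_biInter fun M hM => ?_
  have : M.IsMaximal := hM
  exact Ideal.IsMaximal.isClosed

end Jac

end Pool.Agent.Lib.MP_b3782f_an.H79
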