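import Pool.Agent.Lib.MP_b3782f_an.H79.Lift
import Pool.Agent.Lib.MP_74fee8_an.HumpGen

set_option autoImplicit false

open Filter Topology Finset

namespace Pool.Agent.Lib.MP_b3782f_an.H79

section Sel

variable {E F G : Type*} [NormedAddCommGroup E] [NormedSpace ℂ E] [CompleteSpace E]
  [NormedAddCommGroup F] [NormedSpace ℂ F] [CompleteSpace F]
  [SeminormedAddCommGroup G] [NormedSpace ℂ G]

/-- The separating space of a linear map. -/
def Sep (T : E →ₗ[ℂ] F) : Set F :=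
  {y | ∃ x : ℕ → E, Tendsto x atTop (𝓝 0) ∧ Tendsto (fun k => T (x k)) atTop (𝓝 y)}

omit [CompleteSpace E] [CompleteSpace F] in
theorem mem_Sep_of_closure (T : E →ₗ[ℂ] F) {z : E × F} (hz : z ∈ T.graph.topologicalClosure) :
    z.2 - T z.1 ∈ Sep T := by
  have h1 : z ∈ closure (T.graph : Set (E × F)) := hz
  rw [mem_closure_iff_seq_limit] at h1
  obtain ⟨w, hw, hwz⟩ := h1
  have hw' : ∀ k, (w k).2 = T (w k).1 := fun k => by
    have := hw k
    simpa [LinearMap.mem_graph_iff] using this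
  refine ⟨fun k => (w k).1 - z.1, ?_, ?_⟩
  · have := ((continuous_fst.tendsto z).comp hwz).sub_const z.1
    simpa using this
  · have := ((continuous_snd.tendsto z).comp hwz).sub_const (T z.1)
    refine this.congr fun k => ?_
    simp [hw']

/-- Bounded selection modulo the separating space. -/
theorem exists_sel (T : E →ₗ[ℂ] F) :
    ∃ C > 0, ∀ x, ∃ y, ‖y‖ ≤ C * ‖x‖ ∧ y - T x ∈ Sep T := by
  have : CompleteSpace T.graph.topologicalClosure :=
    T.graph.isClosed_topologicalClosure.completeSpace_coe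
  let p : T.graph.topologicalClosure →L[ℂ] E :=
    (ContinuousLinearMap.fst ℂ E F).comp T.graph.topologicalClosure.subtypeL
  have hsurj : Function.Surjective p := by
    intro x
    refine ⟨⟨(x, T x), T.graph.le_topologicalClosure ?_⟩, rfl⟩
    rw [LinearMap.mem_graph_iff]
  obtain ⟨C, hC, hC2⟩ := p.exists_preimage_norm_le hsurj
  refine ⟨C, hC, fun x => ?_⟩
  obtain ⟨z, hz1, hz2⟩ := hC2 x
  refine ⟨(z : E × F).2, ?_, ?_⟩
  · exact (norm_snd_le (z : E × F)).trans hz2
  · have h1 := mem_Sep_of_closure T z.2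
    have h2 : (z : E × F).1 = x := hz1
    rwa [h2] at h1

/-- A continuous linear map vanishing on the separating space of `T` makes `T` continuous. -/
theorem exists_bound_of_sep (T : E →ₗ[ℂ] F) (f : F →L[ℂ] G) (hf : ∀ y ∈ Sep T, f y = 0) :
    ∃ C > 0, ∀ x, ‖f (T x)‖ ≤ C * ‖x‖ := by
  obtain ⟨C, hC, hC2⟩ := exists_sel T
  refine ⟨(‖f‖ + 1) * C, by positivity, fun x => ?_⟩
  obtain ⟨y, hy1, hy2⟩ := hC2 x
  have h1 := hf _ hy2
  rw [map_sub, sub_eq_zero] at h1
  rw [← h1]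
  calc ‖f y‖ ≤ ‖f‖ * ‖y‖ := f.le_opNorm y
    _ ≤ (‖f‖ + 1) * (C * ‖x‖) := by gcongr; linarith
    _ = (‖f‖ + 1) * C * ‖x‖ := by ring

theorem continuous_of_sep (T : E →ₗ[ℂ] F) (f : F →L[ℂ] G) (hf : ∀ y ∈ Sep T, f y = 0) :
    Continuous fun x => f (T x) := by
  obtain ⟨C, hC, hC2⟩ := exists_bound_of_sep T f hf
  exact (LinearMap.mkContinuous ((f : F →ₗ[ℂ] G) ∘ₗ T) C hC2).continuous

omit [CompleteSpace E] [CompleteSpace F] in
theorem Sep.smul_mem {T : E →ₗ[ℂ] F} {y : F} (hy : y ∈ Sep T) (c : ℂ) : c • y ∈ Sep T := by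
  obtain ⟨x, hx1, hx2⟩ := hy
  refine ⟨fun k => c • x k, ?_, ?_⟩
  · simpa using hx1.const_smul c
  · simpa using hx2.const_smul c

end Sel

section Disc

variable {E : Type*} [NormedAddCommGroup E] [NormedSpace ℂ E]

/-- A discontinuous linear functional takes the value `1` along a null sequence. -/
theorem exists_null_seq (d : E →ₗ[ℂ] ℂ) (hd : ¬ Continuous d) :
    ∃ z : ℕ → E, Tendsto z atTop (𝓝 0) ∧ ∀ k, d (z k) = 1 := by
  have h1 : ∀ k : ℕ, ∃ x : E, (k : ℝ) * ‖x‖ < ‖d x‖ := by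
    intro k
    by_contra hcon
    push Not at hcon
    exact hd (LinearMap.mkContinuous d k hcon).continuous
  choose x hx using h1
  have hne : ∀ k, d (x k) ≠ 0 := by
    intro k h0
    have := hx k
    rw [h0, norm_zero] at this
    have h2 : (0 : ℝ) ≤ (k : ℝ) * ‖x k‖ := by positivity
    linarith
  have hb : ∀ k : ℕ, ‖(d (x k))⁻¹ • x k‖ * k ≤ 1 := by
    intro k
    rw [norm_smul, norm_inv]
    have h3 : 0 < ‖d (x k)‖ := norm_pos_iff.2 (hne k)
    rw [show ‖d (x k)‖⁻¹ * ‖x k‖ * k = (k * ‖x k‖) / ‖d (x k)‖ by ring, div_le_one h3]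
    exact (hx k).le
  refine ⟨fun k => (d (x (k + 1)))⁻¹ • x (k + 1), ?_, ?_⟩
  · apply squeeze_zero_norm (a := fun k : ℕ => 1 / ((k : ℝ) + 1))
    · intro k
      have h3 := hb (k + 1)
      push_cast at h3
      rw [le_div_iff₀ (by positivity)]
      exact h3
    · exact tendsto_one_div_add_atTop_nhds_zero_nat
  · intro k
    rw [map_smul, smul_eq_mul, inv_mul_cancel₀ (hne _)]

end Disc

section Stab

variable {A : Type} [NormedRing A] [NormedAlgebra ℂ A]
variable {δ : A →ₗ[ℂ] A} (hδ : ∀ a b : A, δ (a * b) = a * δ b + δ a * b)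

include hδ

theorem Sep.mul_left {s : A} (hs : s ∈ Sep δ) (a : A) : a * s ∈ Sep δ := by
  obtain ⟨x, hx1, hx2⟩ := hs
  refine ⟨fun k => a * x k, ?_, ?_⟩
  · simpa using hx1.const_mul a
  · simp only [hδ]
    simpa using (hx2.const_mul a).add (hx1.const_mul (δ a))

theorem Sep.mul_right {s : A} (hs : s ∈ Sep δ) (a : A) : s * a ∈ Sep δ := by
  obtain ⟨x, hx1, hx2⟩ := hs
  refine ⟨fun k => x k * a, ?_, ?_⟩
  · simpa using hx1.mul_const a
  · simp only [hδ]
    simpa using (hx1.mul_const (δ a)).add (hx2.mul_const a)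

/-- Stability: the right annihilators of `S Q ^ j` are eventually constant. -/
theorem stability [CompleteSpace A] (Q : A) :
    ∃ j : ℕ, ∀ t : A, (∀ s ∈ Sep δ, s * Q ^ (j + 1) * t = 0) → ∀ s ∈ Sep δ, s * Q ^ j * t = 0 := by
  by_contra hcon
  push Not at hcon
  choose t ht1 ht2 using hcon
  have htne : ∀ j, t j ≠ 0 := by
    intro j h0
    obtain ⟨s, hs, hs2⟩ := ht2 j
    exact hs2 (by rw [h0, mul_zero])
  have htpos : ∀ j, 0 < ‖t j‖ := fun j => norm_pos_iff.2 (htne j)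
  -- right multiplications
  let τ : A →ₗ[ℂ] A := LinearMap.mulRight ℂ Q
  let C : ℕ → A →ₗ[ℂ] A := fun n => LinearMap.mulRight ℂ (Q ^ n)
  let N : ℕ → Seminorm ℂ A := fun n =>
    (normSeminorm ℂ A).comp ((LinearMap.mulRight ℂ ((((‖t n‖⁻¹ : ℝ)) : ℂ) • t n)) ∘ₗ δ)
  have hN : ∀ n x, N n x = ‖t n‖⁻¹ * ‖δ x * t n‖ := by
    intro n x
    simp only [N, Seminorm.comp_apply, coe_normSeminorm, LinearMap.comp_apply,
      LinearMap.mulRight_apply, mul_smul_comm, norm_smul]
    simp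
  have hτ : Continuous τ := by
    change Continuous fun y : A => y * Q
    fun_prop
  have hws : WithSeminorms (fun _ : ℕ => normSeminorm ℂ A) :=
    (norm_withSeminorms ℂ A).congr (fun _ => ⟨{0}, 1, by simp⟩) (fun _ => ⟨{0}, 1, by simp⟩)
  suffices hex : ∃ x : A, ∀ n : ℕ, (n : ℝ) ≤ N n x by
    obtain ⟨x, hx⟩ := hex
    obtain ⟨n, hn⟩ := exists_nat_gt ‖δ x‖
    have h1 := hx n
    rw [hN] at h1
    have h2 : ‖t n‖⁻¹ * ‖δ x * t n‖ ≤ ‖δ x‖ := by
      rw [inv_mul_le_iff₀ (htpos n), mul_comm]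
      exact norm_mul_le _ _
    linarith
  refine Pool.Agent.Lib.MP_74fee8_an.hump_gen (A := A)
    (p := fun _ => normSeminorm ℂ A) hws (fun _ _ _ => le_rfl) (fun _ => τ) C
    (fun _ => hτ) ?_ ?_ N ?_ ?_
  · ext y
    simp [C]
  · intro n
    ext y
    simp [C, τ, pow_succ', mul_assoc]
  · intro n ε hε
    have h1 : ∀ y ∈ Sep δ, (((LinearMap.mulRight ℂ (Q ^ (n + 1) * t n)).mkContinuous
        ‖Q ^ (n + 1) * t n‖ (fun x => by
          rw [LinearMap.mulRight_apply, mul_comm]; exact norm_mul_le _ _)) : A →L[ℂ] A) y = 0 := by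
      intro y hy
      have := ht1 n y hy
      simpa [mul_assoc] using this
    have h2 := continuous_of_sep δ _ h1
    have h3 : Continuous fun y : A => N n (C (n + 1) y) := by
      have h4 : (fun y : A => N n (C (n + 1) y))
          = fun y : A => ‖t n‖⁻¹ * ‖y * δ (Q ^ (n + 1)) * t n + δ y * (Q ^ (n + 1) * t n)‖ := by
        funext y
        rw [hN]
        simp only [C, LinearMap.mulRight_apply, hδ, add_mul, mul_assoc]
      rw [h4]
      have h5 : Continuous fun y : A => δ y * (Q ^ (n + 1) * t n) := h2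
      fun_prop
    have h4 := h3.tendsto 0
    simp only [map_zero] at h4
    exact h4.eventually (gt_mem_nhds hε)
  · intro n U hU K
    obtain ⟨s, hs, hs2⟩ := ht2 n
    obtain ⟨x, hx1, hx2⟩ := hs
    -- scale
    have hpos : 0 < ‖s * Q ^ n * t n‖ := norm_pos_iff.2 hs2
    set c : ℝ := (|K| + 1) * ‖t n‖ * (2 / ‖s * Q ^ n * t n‖) with hc
    have hcpos : 0 < c := by have := htpos n; positivity
    have h3 : Tendsto (fun k => ‖δ ((c : ℂ) • x k * Q ^ n) * t n‖) atTop
        (𝓝 (c * ‖s * Q ^ n * t n‖)) := by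
      have h4 : Tendsto (fun k => δ ((c : ℂ) • x k * Q ^ n) * t n) atTop
          (𝓝 ((c : ℂ) • (s * Q ^ n * t n))) := by
        have h5 : ∀ k, δ ((c : ℂ) • x k * Q ^ n) * t n
            = (c : ℂ) • (x k * δ (Q ^ n) * t n + δ (x k) * Q ^ n * t n) := by
          intro k
          rw [smul_mul_assoc, map_smul, hδ, smul_mul_assoc, add_mul]
        simp only [h5]
        have h6 := (((hx1.mul_const (δ (Q ^ n))).mul_const (t n)).add
          ((hx2.mul_const (Q ^ n)).mul_const (t n))).const_smul (c : ℂ)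
        simpa using h6
      have h7 := h4.norm
      rw [norm_smul, Complex.norm_real, Real.norm_of_nonneg hcpos.le] at h7
      exact h7
    have h4 : Tendsto (fun k => (c : ℂ) • x k) atTop (𝓝 0) := by
      simpa using hx1.const_smul (c : ℂ)
    have h5 : c * ‖s * Q ^ n * t n‖ > (|K| + 1) * ‖t n‖ := by
      rw [hc]
      have h6 : (|K| + 1) * ‖t n‖ * (2 / ‖s * Q ^ n * t n‖) * ‖s * Q ^ n * t n‖
          = 2 * ((|K| + 1) * ‖t n‖) := by
        field_simp
      rw [h6]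
      have : 0 < (|K| + 1) * ‖t n‖ := by have := htpos n; positivity
      linarith
    have h6 := h3.eventually (lt_mem_nhds h5)
    obtain ⟨k, hk1, hk2⟩ := ((h4.eventually hU).and h6).exists
    refine ⟨(c : ℂ) • x k, hk1, ?_⟩
    rw [hN]
    have h7 : C n ((c : ℂ) • x k) = (c : ℂ) • x k * Q ^ n := rfl
    rw [h7]
    have h8 : |K| + 1 < ‖t n‖⁻¹ * ‖δ ((c : ℂ) • x k * Q ^ n) * t n‖ := by
      rw [lt_inv_mul_iff₀ (htpos n), mul_comm]
      exact hk2
    have := le_abs_self K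
    linarith

end Stab

end Pool.Agent.Lib.MP_b3782f_an.H79
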